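import Pool.Agent.Q206.DC.Defs

/-!
Classes given by computable (or co-c.e.) trees, with parameters.
-/

namespace Pool.Agent.Q206.DC

open Encodable Denumerable Pool.Agent.Helper446 Pool.Agent.Helper446.RE
open Pool.Agent.Helper446.CB Pool.Agent.Q206.ISC
open Nat.Partrec (Code)
open Nat.Partrec.Code (eval evaln)

/-- the primitive recursive tree: no prefix has been enumerated so far -/
def trc (c : Code) (x : ℕ) (σ : List ℕ) : Bool :=
  (List.range (σ.length + 1)).foldl (fun b j =>
    b && (evaln σ.length c (Nat.pair x (encode (σ.take j)))).isNone) true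

theorem foldl_and {α : Type*} (q : α → Bool) (l : List α) (b : Bool) :
    l.foldl (fun b j => b && q j) b = true ↔ b = true ∧ ∀ j ∈ l, q j = true := by
  induction l generalizing b with
  | nil => simp
  | cons a l ih => simp [ih, and_assoc]

theorem trc_iff {c : Code} {x : ℕ} {σ : List ℕ} : trc c x σ = true ↔
    ∀ j ≤ σ.length, evaln σ.length c (Nat.pair x (encode (σ.take j))) = none := by
  unfold trc
  rw [foldl_and]
  simp only [true_and, List.mem_range, Nat.lt_succ_iff, Option.isNone_iff_eq_none]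

theorem trc_primrec (c : Code) : Primrec fun p : ℕ × List ℕ => trc c p.1 p.2 := by
  have hl : Primrec fun p : ℕ × List ℕ => p.2.length := Primrec.list_length.comp Primrec.snd
  have h1 : Primrec fun q : (ℕ × List ℕ) × (Bool × ℕ) =>
      evaln q.1.2.length c (Nat.pair q.1.1 (encode (q.1.2.take q.2.2))) := by
    have ha : Primrec fun q : (ℕ × List ℕ) × (Bool × ℕ) => q.1.2.take q.2.2 :=
      Primrec.list_take.comp (Primrec.snd.comp Primrec.snd) (Primrec.snd.comp Primrec.fst)
    have hb : Primrec fun q : (ℕ × List ℕ) × (Bool × ℕ) =>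
        Nat.pair q.1.1 (encode (q.1.2.take q.2.2)) :=
      Primrec₂.natPair.comp (Primrec.fst.comp Primrec.fst) (Primrec.encode.comp ha)
    have hc : Primrec fun q : (ℕ × List ℕ) × (Bool × ℕ) => q.1.2.length :=
      hl.comp Primrec.fst
    exact Nat.Partrec.Code.primrec_evaln.comp ((hc.pair (Primrec.const c)).pair hb)
  have h2 : Primrec fun q : (ℕ × List ℕ) × (Bool × ℕ) =>
      (evaln q.1.2.length c (Nat.pair q.1.1 (encode (q.1.2.take q.2.2)))).isNone := by
    refine (Primrec.not.comp (Primrec.option_isSome.comp h1)).of_eq fun q => ?_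
    cases evaln q.1.2.length c (Nat.pair q.1.1 (encode (q.1.2.take q.2.2))) <;> rfl
  have h3 : Primrec₂ fun (p : ℕ × List ℕ) (r : Bool × ℕ) =>
      r.1 && (evaln p.2.length c (Nat.pair p.1 (encode (p.2.take r.2)))).isNone :=
    (Primrec.and.comp (Primrec.fst.comp Primrec.snd) h2).to₂
  exact Primrec.list_foldl (Primrec.list_range.comp (Primrec.succ.comp hl))
    (Primrec.const true) h3

/-- Classes given by co-c.e. trees with a parameter. -/
theorem smn_re {π : ℕ → List ℕ → Bool} (hπ : EffEnum π) {p : ℕ × List ℕ → Prop} (hp : REPred p) :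
    ∃ f : ℕ → ℕ, Computable f ∧ ∀ x, P π (f x) = {X | ∀ n, ¬ p (x, pre X n)} := by
  obtain ⟨c, hc⟩ := exists_code (RE.comp hp (f := fun m : ℕ =>
    (m.unpair.1, ofNat (List ℕ) m.unpair.2)) ((by fun_prop : Computable fun m : ℕ =>
      m.unpair.1).pair ((Computable.ofNat (List ℕ)).comp (by fun_prop))))
  obtain ⟨f, hf, hf'⟩ := hπ.smn (trc c) (trc_primrec c)
  refine ⟨f, hf, fun x => ?_⟩
  ext X
  rw [mem_P, hf' x]
  have hpc : ∀ σ, p (x, σ) ↔ (eval c (Nat.pair x (encode σ))).Dom := by
    intro σ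
    rw [← hc]
    simp
  constructor
  · intro h n hpn
    rw [hpc] at hpn
    obtain ⟨v, hv⟩ := Part.dom_iff_mem.1 hpn
    obtain ⟨k, hk⟩ := Nat.Partrec.Code.evaln_complete.1 hv
    have h1 := trc_iff.1 (h (k + n)) n (by rw [pre_length]; omega)
    rw [pre_length, pre_take X _ _ (by omega)] at h1
    have h2 := Nat.Partrec.Code.evaln_mono (show k ≤ k + n by omega) hk
    rw [Option.mem_def, h1] at h2
    exact absurd h2 (by simp)
  · intro h n
    rw [trc_iff]
    intro j hj
    rw [pre_length] at hj ⊢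
    rw [pre_take X _ _ hj]
    rcases he : evaln n c (Nat.pair x (encode (pre X j))) with _ | v
    · rfl
    · exact absurd ((hpc _).2 (Part.dom_iff_mem.2 ⟨v, Nat.Partrec.Code.evaln_sound he⟩)) (h j)

/-- Classes given by computable trees with a parameter. -/
theorem smn_comp {π : ℕ → List ℕ → Bool} (hπ : EffEnum π) {T : ℕ × List ℕ → Prop}
    (hT : Pi 1 T) :
    ∃ f : ℕ → ℕ, Computable f ∧ ∀ x, Q π (f x) = {b | ∀ n, T (x, pre (toN b) n)} := by
  obtain ⟨f, hf, hf'⟩ := smn_re hπ (pi_one.1 hT)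
  refine ⟨f, hf, fun x => ?_⟩
  ext b
  show toN b ∈ P π (f x) ↔ _
  rw [hf' x]
  simp

theorem mem_Q {π : ℕ → List ℕ → Bool} {e : ℕ} {b : ℕ → Bool} :
    b ∈ Q π e ↔ ∀ n, π e (pre (toN b) n) = true := mem_P

theorem mem_Q_good {π : ℕ → List ℕ → Bool} {e : ℕ} {b : ℕ → Bool} :
    b ∈ Q π e ↔ ∀ n, good π e (pre (toN b) n) = true := by
  rw [mem_Q]
  constructor
  · intro h n
    rw [good_iff]
    intro m hm
    rw [pre_length] at hm
    rw [pre_take _ _ _ hm]
    exact h m
  · intro h n
    have := good_iff.1 (h n) n (by rw [pre_length])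
    rwa [pre_take _ _ _ (le_refl n)] at this

theorem good_take {π : ℕ → List ℕ → Bool} {e : ℕ} {τ : List ℕ} (h : good π e τ = true) (m : ℕ) :
    good π e (τ.take m) = true := by
  rw [good_iff] at *
  intro k hk
  rw [List.length_take] at hk
  rw [List.take_take, min_eq_left (by omega)]
  exact h k (by omega)

theorem good_pre_mono {π : ℕ → List ℕ → Bool} {e : ℕ} {X : ℕ → ℕ} {m n : ℕ} (hmn : m ≤ n)
    (h : good π e (pre X m) = false) : good π e (pre X n) = false := by
  rcases hn : good π e (pre X n) with _ | _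
  · rfl
  · have := good_take hn m
    rw [pre_take _ _ _ hmn, h] at this
    exact absurd this (by simp)

theorem not_mem_Q {π : ℕ → List ℕ → Bool} {e : ℕ} {b : ℕ → Bool} :
    b ∉ Q π e ↔ ∃ n, good π e (pre (toN b) n) = false := by
  rw [mem_Q_good]
  push Not
  simp

theorem toN_injective : Function.Injective toN := by
  intro a b h
  funext i
  have := congrFun h i
  unfold toN at this
  cases ha : a i <;> cases hb : b i <;> simp [ha, hb] at this ⊢

theorem toN_surj {X : ℕ → ℕ} (hX : X ∈ Cantor) : ∃ b, toN b = X := by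
  refine ⟨fun i => X i == 1, ?_⟩
  funext i
  unfold toN
  have := hX i
  rcases (by omega : X i = 0 ∨ X i = 1) with h | h <;> simp [h]

theorem ext_iff_Q {π : ℕ → List ℕ → Bool} {e : ℕ} {σ : List ℕ} :
    Ext π e σ ↔ ∃ b ∈ Q π e, pre (toN b) σ.length = σ := by
  constructor
  · rintro ⟨X, ⟨hX, hX2⟩, hσ⟩
    obtain ⟨b, rfl⟩ := toN_surj hX2
    exact ⟨b, hX, hσ⟩
  · rintro ⟨b, hb, hσ⟩
    exact ⟨toN b, ⟨hb, toN_mem b⟩, hσ⟩

theorem pre_toN_inj {b c : ℕ → Bool} {n : ℕ} (h : pre (toN b) n = pre (toN c) n) :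
    ∀ i < n, b i = c i := by
  intro i hi
  have := pre_inj h i hi
  unfold toN at this
  cases hb : b i <;> cases hc : c i <;> simp [hb, hc] at this ⊢

end Pool.Agent.Q206.DC
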