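import Pool.Agent.Q206.DC.Base
import Pool.Agent.Q206.ISC.Classes

/-!
Finite cardinalities of differences.
-/

namespace Pool.Agent.Q206.DC

open Encodable Denumerable Pool.Agent.Helper446 Pool.Agent.Helper446.RE
open Pool.Agent.Helper446.CB Pool.Agent.Q206.ISC
open Nat.Partrec (Code)
open Nat.Partrec.Code (eval evaln)

/-- the difference with a given index -/
def S (π : ℕ → List ℕ → Bool) (n : ℕ) : Set (ℕ → Bool) := Q π n.unpair.2 \ Q π n.unpair.1

theorem le_encard_iff {π : ℕ → List ℕ → Bool} {a b m : ℕ} :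
    (m : ℕ∞) ≤ (Q π b \ Q π a).encard ↔
      ∃ L : List (List ℕ), (L.Nodup ∧ L.length = m) ∧ (∃ n, ∀ σ ∈ L, σ.length = n) ∧
        ∀ σ ∈ L, Ext π b σ ∧ good π a σ = false := by
  constructor
  · intro h
    obtain ⟨t, ht, htm⟩ := Set.exists_subset_encard_eq h
    have hfin : t.Finite := Set.finite_of_encard_eq_coe htm
    have hsep : ∃ n, (∀ X ∈ t, ∀ Y ∈ t, pre (toN X) n = pre (toN Y) n → X = Y) ∧
        ∀ X ∈ t, good π a (pre (toN X) n) = false := by
      classical
      have h1 : ∀ q : (ℕ → Bool) × (ℕ → Bool), ∃ n, pre (toN q.1) n = pre (toN q.2) n →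
          q.1 = q.2 := by
        intro q
        by_cases hq : q.1 = q.2
        · exact ⟨0, fun _ => hq⟩
        · obtain ⟨i, hi⟩ := Function.ne_iff.1 hq
          exact ⟨i + 1, fun hpre => absurd (pre_toN_inj hpre i (by omega)) hi⟩
      have h2 : ∀ X : ℕ → Bool, ∃ n, X ∈ t → good π a (pre (toN X) n) = false := by
        intro X
        by_cases hX : X ∈ t
        · obtain ⟨n, hn⟩ := not_mem_Q.1 (ht hX).2
          exact ⟨n, fun _ => hn⟩
        · exact ⟨0, fun h => absurd h hX⟩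
      choose N hN using h1
      choose N' hN' using h2
      obtain ⟨M, hM⟩ := ((hfin.prod hfin).image N).bddAbove
      obtain ⟨M', hM'⟩ := (hfin.image N').bddAbove
      refine ⟨max M M', fun X hX Y hY hXY => ?_, fun X hX => ?_⟩
      · have h2 : N (X, Y) ≤ M := hM ⟨(X, Y), ⟨hX, hY⟩, rfl⟩
        refine hN (X, Y) ?_
        exact pre_congr fun i hi => pre_inj hXY i (by omega)
      · have h2 : N' X ≤ M' := hM' ⟨X, hX, rfl⟩
        exact good_pre_mono (by omega) (hN' X hX)
    obtain ⟨n, hn, hn'⟩ := hsep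
    refine ⟨hfin.toFinset.toList.map fun X => pre (toN X) n, ⟨?_, ?_⟩, ⟨n, ?_⟩, ?_⟩
    · refine List.Nodup.map_on ?_ (Finset.nodup_toList _)
      intro X hX Y hY hXY
      refine hn X ?_ Y ?_ hXY
      · simpa using hX
      · simpa using hY
    · rw [List.length_map, Finset.length_toList]
      have := hfin.encard_eq_coe_toFinset_card
      rw [htm] at this
      exact_mod_cast this.symm
    · intro σ hσ
      simp only [List.mem_map] at hσ
      obtain ⟨X, -, rfl⟩ := hσ
      exact pre_length _ n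
    · intro σ hσ
      simp only [List.mem_map, Finset.mem_toList, Set.Finite.mem_toFinset] at hσ
      obtain ⟨X, hX, rfl⟩ := hσ
      exact ⟨ext_iff_Q.2 ⟨X, (ht hX).1, by rw [pre_length]⟩, hn' X hX⟩
  · rintro ⟨L, ⟨hnd, hlen⟩, ⟨n, hn⟩, hL⟩
    classical
    have hch : ∀ σ : List ℕ, ∃ X : ℕ → Bool, σ ∈ L → X ∈ Q π b \ Q π a ∧ pre (toN X) n = σ := by
      intro σ
      by_cases hσ : σ ∈ L
      · obtain ⟨h1, h2⟩ := hL σ hσ
        obtain ⟨X, hX, hXσ⟩ := ext_iff_Q.1 h1
        rw [hn σ hσ] at hXσ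
        exact ⟨X, fun _ => ⟨⟨hX, not_mem_Q.2 ⟨n, by rw [hXσ]; exact h2⟩⟩, hXσ⟩⟩
      · exact ⟨fun _ => false, fun h => absurd h hσ⟩
    choose F hF using hch
    have hinj : Set.InjOn F (L.toFinset : Set (List ℕ)) := by
      intro σ hσ τ hτ hst
      have h1 := (hF σ (by simpa using hσ)).2
      have h2 := (hF τ (by simpa using hτ)).2
      rw [← h1, ← h2, hst]
    have h3 : F '' (L.toFinset : Set (List ℕ)) ⊆ Q π b \ Q π a := by
      rintro X ⟨σ, hσ, rfl⟩
      exact (hF σ (by simpa using hσ)).1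
    have h4 := Set.encard_le_encard h3
    rw [hinj.encard_image, Set.encard_coe_eq_coe_finsetCard, List.toFinset_card_of_nodup hnd,
      hlen] at h4
    exact h4

theorem ge_sig {π : ℕ → List ℕ → Bool} (hπ : EffEnum π) :
    Sig 2 fun p : ℕ × ℕ => (p.1 : ℕ∞) ≤ (S π p.2).encard := by
  refine Sig.of_iff (p := fun p : ℕ × ℕ => ∃ L : List (List ℕ), (L.Nodup ∧ L.length = p.1) ∧
    (∃ n, ∀ σ ∈ L, σ.length = n) ∧ ∀ σ ∈ L, Ext π p.2.unpair.2 σ ∧
      good π p.2.unpair.1 σ = false) ?_ fun p => le_encard_iff.symm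
  refine Sig.ex (n := 1) (p := fun (p : ℕ × ℕ) (L : List (List ℕ)) => (L.Nodup ∧ L.length = p.1) ∧
    (∃ n, ∀ σ ∈ L, σ.length = n) ∧ ∀ σ ∈ L, Ext π p.2.unpair.2 σ ∧
      good π p.2.unpair.1 σ = false) ?_
  have hnd : REPred fun q : (ℕ × ℕ) × List (List ℕ) => q.2.Nodup := cp_nodup (by fun_prop)
  refine Sig.and (Sig.and (Sig.succ (sig_one.2 hnd)) (Sig.of_cp (RE.cp_eq (by fun_prop)
    (by fun_prop)))) (Sig.and ?_ ?_)
  · refine Sig.exN (n := 1) (p := fun (q : (ℕ × ℕ) × List (List ℕ)) (n : ℕ) =>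
      ∀ σ ∈ q.2, σ.length = n) ?_
    refine Sig.ball (p := fun (r : ((ℕ × ℕ) × List (List ℕ)) × ℕ) (σ : List ℕ) =>
      σ.length = r.2) (l := fun r : ((ℕ × ℕ) × List (List ℕ)) × ℕ => r.1.2) ?_ (by fun_prop)
    exact Sig.of_cp (RE.cp_eq (by fun_prop) (by fun_prop))
  · refine Pi.sig (Pi.ball (p := fun (q : (ℕ × ℕ) × List (List ℕ)) (σ : List ℕ) =>
      Ext π q.1.2.unpair.2 σ ∧ good π q.1.2.unpair.1 σ = false)
      (l := fun q : (ℕ × ℕ) × List (List ℕ) => q.2) (Pi.and ?_ ?_) (by fun_prop))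
    · exact (ext_pi hπ).comp (f := fun r : ((ℕ × ℕ) × List (List ℕ)) × List ℕ =>
        (r.1.1.2.unpair.2, r.2)) (by fun_prop)
    · refine Pi.of_cp (RE.cp_eq ?_ (by fun_prop))
      exact (good_comp hπ).comp (g := fun r : ((ℕ × ℕ) × List (List ℕ)) × List ℕ =>
        (r.1.1.2.unpair.1, r.2)) (by fun_prop)

/-- the one-point tree and all the points with a single one -/
def isDl (σ : List ℕ) : Bool :=
  decide (σ = (List.range σ.length).map (dl (σ.findIdx (fun a => !(a == 0)))))

/-- The key lemma for differences. -/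
theorem key {π : ℕ → List ℕ → Bool} (hπ : EffEnum π) {B : ℕ × ℕ → Prop} (hB : Sig 2 B) :
    ∃ f : ℕ → ℕ, Computable f ∧ ∀ x, (S π (f x)).encard = {k | B (k, x)}.encard := by
  obtain ⟨R, hR, hBR, huniq⟩ := Sig.unique_witness (k := 0) hB
  -- the class: at most one `1`, at a place `n` with `R`
  let T : ℕ × List ℕ → Prop := fun p => ∀ n < p.2.length, (p.2[n]?).getD 0 ≠ 0 →
    (R ((n.unpair.1, p.1), n.unpair.2) ∧ ∀ m < p.2.length, m ≠ n → (p.2[m]?).getD 0 = 0)
  have hT : Pi 1 T := by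
    refine Pi.all_lt (p := fun (p : ℕ × List ℕ) (n : ℕ) => (p.2[n]?).getD 0 ≠ 0 →
      (R ((n.unpair.1, p.1), n.unpair.2) ∧ ∀ m < p.2.length, m ≠ n → (p.2[m]?).getD 0 = 0)) ?_
      (by fun_prop)
    have hget : Computable fun q : (ℕ × List ℕ) × ℕ => (q.1.2[q.2]?).getD 0 := by
      have h1 : Computable fun q : (ℕ × List ℕ) × ℕ => q.1.2[q.2]? := by fun_prop
      exact (Primrec.option_getD.comp Primrec.id (Primrec.const 0)).to_comp.comp h1
    have hget2 : Computable fun q : ((ℕ × List ℕ) × ℕ) × ℕ => (q.1.1.2[q.2]?).getD 0 := by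
      have h1 : Computable fun q : ((ℕ × List ℕ) × ℕ) × ℕ => q.1.1.2[q.2]? := by fun_prop
      exact (Primrec.option_getD.comp Primrec.id (Primrec.const 0)).to_comp.comp h1
    refine Pi.imp (Sig.of_cp (RE.cp_eq hget (by fun_prop)).not) (Pi.and ?_ ?_)
    · exact hR.comp (f := fun q : (ℕ × List ℕ) × ℕ => ((q.2.unpair.1, q.1.1), q.2.unpair.2))
        (by fun_prop)
    · refine Pi.all_lt (p := fun (q : (ℕ × List ℕ) × ℕ) (m : ℕ) => m ≠ q.2 →
        (q.1.2[m]?).getD 0 = 0) ?_ (by fun_prop)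
      refine Pi.imp (Sig.of_cp (RE.cp_eq (by fun_prop) (by fun_prop)).not)
        (Pi.of_cp (RE.cp_eq hget2 (by fun_prop)))
  obtain ⟨f, hf, hf'⟩ := smn_comp hπ hT
  obtain ⟨g, hg, hg'⟩ := smn_comp hπ (T := fun p : ℕ × List ℕ => ∀ a ∈ p.2, a = 0) (by
    refine Pi.ball (p := fun (p : ℕ × List ℕ) (a : ℕ) => a = 0) ?_ (by fun_prop)
    exact Pi.of_cp (RE.cp_eq (by fun_prop) (by fun_prop)))
  refine ⟨fun x => Nat.pair (g 0) (f x), by fun_prop, fun x => ?_⟩
  unfold S
  simp only [Nat.unpair_pair]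
  let e : ℕ → ℕ → Bool := fun i j => j == i
  have he : Function.Injective e := by
    intro i j hij
    have := congrFun hij i
    simpa [e] using this
  have hg0 : Q π (g 0) = {fun _ => false} := by
    rw [hg']
    ext b
    simp only [Set.mem_ofPred_eq, Set.mem_singleton_iff]
    constructor
    · intro h
      funext i
      have := h (i + 1) (toN b i) (by simp [pre]; exact ⟨i, by omega, rfl⟩)
      unfold toN at this
      cases hb : b i <;> simp [hb] at this ⊢
    · rintro rfl n a ha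
      simp only [pre, List.mem_map, List.mem_range] at ha
      obtain ⟨i, -, rfl⟩ := ha
      rfl
  have hgetpre : ∀ (b : ℕ → Bool) (n k : ℕ), n < k → ((pre (toN b) k)[n]?).getD 0 = toN b n := by
    intro b n k hnk
    simp [pre, hnk]
  have htoN : ∀ (b : ℕ → Bool) i, toN b i ≠ 0 ↔ b i = true := by
    intro b i
    unfold toN
    cases b i <;> simp
  have htoN0 : ∀ (b : ℕ → Bool) i, toN b i = 0 ↔ b i = false := by
    intro b i
    unfold toN
    cases b i <;> simp
  have hset : Q π (f x) \ Q π (g 0) = e '' {n | R ((n.unpair.1, x), n.unpair.2)} := by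
    rw [hg0, hf']
    ext b
    simp only [Set.mem_sdiff, Set.mem_ofPred_eq, Set.mem_singleton_iff, Set.mem_image]
    constructor
    · rintro ⟨h1, h2⟩
      obtain ⟨n, hn⟩ := Function.ne_iff.1 h2
      have hn1 : b n = true := by simpa using hn
      have h3 := h1 (n + 1) n (by rw [pre_length]; omega) (by
        rw [hgetpre b n (n + 1) (by omega), htoN]; exact hn1)
      refine ⟨n, h3.1, ?_⟩
      funext m
      by_cases hmn : m = n
      · subst hmn
        simp [e, hn1]
      · have h4 := (h1 (n + m + 1) n (by rw [pre_length]; omega) (by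
          rw [hgetpre b n (n + m + 1) (by omega), htoN]; exact hn1)).2 m
          (by rw [pre_length]; omega) hmn
        rw [hgetpre b m (n + m + 1) (by omega), htoN0] at h4
        rw [h4]
        simpa [e] using hmn
    · rintro ⟨n, hn, rfl⟩
      refine ⟨fun k m hm hne => ?_, fun h => ?_⟩
      · rw [pre_length] at hm
        rw [hgetpre _ m k hm, htoN] at hne
        have hmn : m = n := by simpa [e] using hne
        subst hmn
        refine ⟨hn, fun j hj hjm => ?_⟩
        rw [pre_length] at hj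
        rw [hgetpre _ j k hj, htoN0]
        simpa [e] using hjm
      · have := congrFun h n
        simp [e] at this
  rw [hset, he.encard_image]
  have hinj : Set.InjOn (fun n : ℕ => n.unpair.1) {n | R ((n.unpair.1, x), n.unpair.2)} := by
    intro n hn m hm hnm
    have hn' : R ((n.unpair.1, x), n.unpair.2) := hn
    have hm' : R ((m.unpair.1, x), m.unpair.2) := hm
    have hnm' : n.unpair.1 = m.unpair.1 := hnm
    rw [← hnm'] at hm'
    have := huniq _ _ _ hn' hm'
    rw [← Nat.pair_unpair n, ← Nat.pair_unpair m, hnm', this]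
  rw [← hinj.encard_image]
  congr 1
  ext k
  constructor
  · rintro ⟨n, hn, rfl⟩
    exact (hBR _).2 ⟨_, hn⟩
  · intro hk
    obtain ⟨w, hw⟩ := (hBR _).1 hk
    refine ⟨Nat.pair k w, ?_, by simp⟩
    show R (((Nat.pair k w).unpair.1, x), (Nat.pair k w).unpair.2)
    simpa using hw

theorem encard_lt (m : ℕ) : {k : ℕ | k < m}.encard = m := by
  rw [← (finite_lt m).cast_ncard_eq, ncard_lt]

/-- At least `c` members. -/
theorem ge_complete {π : ℕ → List ℕ → Bool} (hπ : EffEnum π) {c : ℕ} (hc : 1 ≤ c) :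
    Complete (Sig 2) (fun n => (c : ℕ∞) ≤ (S π n).encard) := by
  refine ⟨(ge_sig hπ).comp (f := fun n : ℕ => (c, n)) (by fun_prop), fun X hX => ?_⟩
  obtain ⟨f, hf, hf'⟩ := key hπ (B := fun q => q.1 + 1 < c ∨ (q.1 + 1 = c ∧ X q.2)) (by
    refine Sig.or (Sig.of_cp (RE.cp_lt (by fun_prop) (by fun_prop)))
      (Sig.and (Sig.of_cp (RE.cp_eq (by fun_prop) (by fun_prop))) ?_)
    exact hX.comp (f := fun q : ℕ × ℕ => q.2) (by fun_prop))
  refine ⟨f, hf, fun x => ?_⟩
  show X x ↔ (c : ℕ∞) ≤ (S π (f x)).encard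
  rw [hf' x]
  dsimp only
  by_cases hx : X x
  · have : {k | k + 1 < c ∨ (k + 1 = c ∧ X x)} = {k | k < c} := by
      ext k
      simp only [Set.mem_ofPred_eq, hx, and_true]
      omega
    rw [this, encard_lt]
    simp [hx]
  · have : {k | k + 1 < c ∨ (k + 1 = c ∧ X x)} = {k | k < c - 1} := by
      ext k
      simp only [Set.mem_ofPred_eq, hx, and_false, or_false]
      omega
    rw [this, encard_lt, Nat.cast_le]
    simp only [hx, false_iff]
    omega

theorem complete_compl {Γ : (ℕ → Prop) → Prop} {A : ℕ → Prop} (h : Complete Γ A) :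
    Complete (fun X => Γ fun x => ¬ X x) (fun n => ¬ A n) := by
  refine ⟨?_, fun X hX => ?_⟩
  · simpa using h.1
  · obtain ⟨f, hf, hf'⟩ := h.2 _ hX
    refine ⟨f, hf, fun x => ?_⟩
    show X x ↔ ¬ A (f x)
    rw [← hf' x, not_not]

theorem complete_congr {Γ : (ℕ → Prop) → Prop} {A B : ℕ → Prop} (h : Complete Γ A)
    (hAB : ∀ n, A n ↔ B n) : Complete Γ B := by
  have : A = B := funext fun n => propext (hAB n)
  rwa [← this]

/-- Exactly `c` members. -/
theorem eq_complete {π : ℕ → List ℕ → Bool} (hπ : EffEnum π) {c : ℕ} (hc : 1 ≤ c) :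
    Complete Diff2 (fun n => (S π n).encard = (c : ℕ∞)) := by
  refine ⟨⟨_, _, (ge_sig hπ).comp (f := fun n : ℕ => (c, n)) (by fun_prop),
    (ge_sig hπ).comp (f := fun n : ℕ => (c + 1, n)) (by fun_prop), fun n => ?_⟩, ?_⟩
  · dsimp only
    constructor
    · intro h
      rw [h]
      refine ⟨le_refl _, ?_⟩
      rw [Nat.cast_le]
      omega
    · rintro ⟨h1, h2⟩
      refine le_antisymm ?_ h1
      rw [not_le] at h2
      exact ENat.lt_natCast_add_one_iff.1 (by exact_mod_cast h2)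
  · rintro X ⟨A, B, hA, hB, hX⟩
    obtain ⟨f, hf, hf'⟩ := key hπ (B := fun q => q.1 + 1 < c ∨ (q.1 + 1 = c ∧ A q.2) ∨
        (q.1 = c ∧ (A q.2 ∧ B q.2))) (by
      refine Sig.or (Sig.of_cp (RE.cp_lt (by fun_prop) (by fun_prop)))
        (Sig.or (Sig.and (Sig.of_cp (RE.cp_eq (by fun_prop) (by fun_prop))) ?_)
          (Sig.and (Sig.of_cp (RE.cp_eq (by fun_prop) (by fun_prop))) (Sig.and ?_ ?_)))
      · exact hA.comp (f := fun q : ℕ × ℕ => q.2) (by fun_prop)
      · exact hA.comp (f := fun q : ℕ × ℕ => q.2) (by fun_prop)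
      · exact hB.comp (f := fun q : ℕ × ℕ => q.2) (by fun_prop))
    refine ⟨f, hf, fun x => ?_⟩
    show X x ↔ (S π (f x)).encard = (c : ℕ∞)
    rw [hX x, hf' x]
    dsimp only
    by_cases hAx : A x
    · by_cases hBx : B x
      · have : {k | k + 1 < c ∨ (k + 1 = c ∧ A x) ∨ (k = c ∧ (A x ∧ B x))} = {k | k < c + 1} := by
          ext k
          simp only [Set.mem_ofPred_eq, hAx, hBx, and_true]
          omega
        rw [this, encard_lt]
        simp only [hAx, hBx, not_true, and_false, false_iff]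
        exact_mod_cast (by omega : ¬ c + 1 = c)
      · have : {k | k + 1 < c ∨ (k + 1 = c ∧ A x) ∨ (k = c ∧ (A x ∧ B x))} = {k | k < c} := by
          ext k
          simp only [Set.mem_ofPred_eq, hAx, hBx, and_true, and_false, or_false]
          omega
        rw [this, encard_lt]
        simp [hAx, hBx]
    · have : {k | k + 1 < c ∨ (k + 1 = c ∧ A x) ∨ (k = c ∧ (A x ∧ B x))} = {k | k < c - 1} := by
        ext k
        simp only [Set.mem_ofPred_eq, hAx, false_and, and_false, or_false]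
        omega
      rw [this, encard_lt]
      simp only [hAx, false_and, false_iff]
      exact_mod_cast (by omega : ¬ c - 1 = c)

/-- Finitely many members. -/
theorem fin_complete {π : ℕ → List ℕ → Bool} (hπ : EffEnum π) :
    Complete (Sig 3) (fun n => (S π n).Finite) := by
  refine ⟨?_, ?_⟩
  · refine Sig.of_iff (p := fun n => ∃ c : ℕ, ¬ (c : ℕ∞) ≤ (S π n).encard) ?_ ?_
    · refine Sig.exN (n := 2) (p := fun (n : ℕ) (c : ℕ) => ¬ (c : ℕ∞) ≤ (S π n).encard) ?_
      exact Pi.sig (Sig.not ((ge_sig hπ).comp (f := fun q : ℕ × ℕ => (q.2, q.1)) (by fun_prop)))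
    · intro n
      constructor
      · rintro ⟨c, hc⟩
        rw [not_le] at hc
        exact Set.finite_of_encard_le_coe hc.le
      · intro h
        refine ⟨(S π n).ncard + 1, ?_⟩
        rw [← h.cast_ncard_eq, Nat.cast_le]
        omega
  · intro X hX
    obtain ⟨q, hq, hXq⟩ := hX
    obtain ⟨f, hf, hf'⟩ := key hπ (B := fun y => ∀ a < y.1 + 1, q (y.2, a)) (by
      refine Sig.all_lt (p := fun (y : ℕ × ℕ) (a : ℕ) => q (y.2, a)) ?_ (by fun_prop)
      exact hq.comp (f := fun r : (ℕ × ℕ) × ℕ => (r.1.2, r.2)) (by fun_prop))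
    refine ⟨f, hf, fun x => ?_⟩
    show X x ↔ (S π (f x)).Finite
    rw [hXq x, ← Set.encard_lt_top_iff, hf' x, Set.encard_lt_top_iff]
    dsimp only
    constructor
    · rintro ⟨m, hm⟩
      refine (finite_lt m).subset fun k hk => ?_
      show k < m
      by_contra hlt
      exact hm (hk m (by omega))
    · intro h
      by_contra hno
      push Not at hno
      have : {k | ∀ a < k + 1, q (x, a)} = Set.univ := Set.eq_univ_of_forall fun k a _ => hno a
      rw [this] at h
      exact Set.infinite_univ h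

end Pool.Agent.Q206.DC
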