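import Pool.Agent.Q206.DC.UncHard

/-!
All cardinality properties.
-/

namespace Pool.Agent.Q206.DC

open Encodable Denumerable Pool.Agent.Helper446 Pool.Agent.Helper446.RE
open Pool.Agent.Helper446.CB Pool.Agent.Q206.ISC
open Cardinal

theorem getD_comp {α : Type} [Primcodable α] {f : α → List ℕ} {g : α → ℕ} (hf : Computable f)
    (hg : Computable g) : Computable fun a => ((f a)[g a]?).getD 0 := by
  have h1 : Computable fun a => (f a)[g a]? := by fun_prop
  exact (Primrec.option_getD.comp Primrec.id (Primrec.const 0)).to_comp.comp h1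

theorem pre_getD (f : ℕ → ℕ) {n i : ℕ} (h : i < n) : ((pre f n)[i]?).getD 0 = f i := by
  simp [pre, h]

theorem sigma11_of_sig3 {X : ℕ → Prop} (hX : Sig 3 X) : Sigma11 X := by
  obtain ⟨q, ⟨r, ⟨t, ht, hrt⟩, hqr⟩, hXq⟩ := hX
  have ht' : Sig 0 t := ht
  refine ⟨fun p => ∀ i < p.2.length, ¬ i = 0 →
    ¬ t (((p.1, (p.2[0]?).getD 0), i - 1), (p.2[i]?).getD 0), ?_, fun x => ?_⟩
  · show Sig 0 _
    refine Sig.all_lt (n := 0) (p := fun (p : ℕ × List ℕ) (i : ℕ) => ¬ i = 0 →
      ¬ t (((p.1, (p.2[0]?).getD 0), i - 1), (p.2[i]?).getD 0)) ?_ (by fun_prop)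
    refine Sig.imp ?_ ?_
    · exact Pi.of_cp (RE.cp_eq (by fun_prop) (by fun_prop)).not
    · have h1 : Computable fun y : (ℕ × List ℕ) × ℕ => (y.1.2[0]?).getD 0 :=
        getD_comp (by fun_prop) (by fun_prop)
      have h2 : Computable fun y : (ℕ × List ℕ) × ℕ => (y.1.2[y.2]?).getD 0 :=
        getD_comp (by fun_prop) (by fun_prop)
      exact (RE.cp_comp ht (f := fun y : (ℕ × List ℕ) × ℕ =>
        (((y.1.1, (y.1.2[0]?).getD 0), y.2 - 1), (y.1.2[y.2]?).getD 0)) (by fun_prop)).not
  · rw [hXq]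
    constructor
    · rintro ⟨m, hm⟩
      rw [hqr] at hm
      push Not at hm
      have h1 : ∀ j, ∃ w, ¬ t (((x, m), j), w) := fun j => (hrt _).1 (hm j)
      choose w hw using h1
      refine ⟨fun i => Nat.casesOn i m w, fun n i hi hi0 => ?_⟩
      rw [pre_length] at hi
      dsimp only
      rw [pre_getD _ hi, pre_getD _ (by omega : 0 < n)]
      obtain ⟨j, rfl⟩ : ∃ j, i = j + 1 := ⟨i - 1, by omega⟩
      exact hw j
    · rintro ⟨f, hf⟩
      refine ⟨f 0, ?_⟩
      rw [hqr]
      push Not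
      intro j
      have h1 := hf (j + 2) (j + 1) (by rw [pre_length]; omega) (by omega)
      dsimp only at h1
      rw [pre_getD _ (by omega), pre_getD _ (by omega)] at h1
      exact (hrt _).2 ⟨_, h1⟩

theorem pre_cons (a : ℕ) (f : ℕ → ℕ) (n : ℕ) :
    pre (fun i => Nat.casesOn i a f) (n + 1) = a :: pre f n := by
  unfold pre
  rw [List.range_succ_eq_map]
  simp only [List.map_cons, List.map_map]
  rfl

theorem Sigma11.or {A B : ℕ → Prop} (hA : Sigma11 A) (hB : Sigma11 B) :
    Sigma11 fun x => A x ∨ B x := by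
  obtain ⟨R1, hR1, hA⟩ := hA
  obtain ⟨R2, hR2, hB⟩ := hB
  have htail : Computable fun y : ℕ × List ℕ => y.2.tail :=
    Primrec.list_tail.to_comp.comp (by fun_prop)
  have hget : Computable fun y : ℕ × List ℕ => (y.2[0]?).getD 0 :=
    getD_comp (by fun_prop) (by fun_prop)
  refine ⟨fun p => p.2.length = 0 ∨ (((p.2[0]?).getD 0 = 0 ∧ R1 (p.1, p.2.tail)) ∨
    (¬ (p.2[0]?).getD 0 = 0 ∧ R2 (p.1, p.2.tail))), ?_, fun x => ?_⟩
  · show Sig 0 _
    refine Sig.or (RE.cp_eq (by fun_prop) (by fun_prop)) (Sig.or (Sig.and ?_ ?_) (Sig.and ?_ ?_))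
    · exact RE.cp_eq hget (by fun_prop)
    · exact RE.cp_comp hR1 (f := fun y : ℕ × List ℕ => (y.1, y.2.tail)) (by fun_prop)
    · exact (RE.cp_eq hget (by fun_prop)).not
    · exact RE.cp_comp hR2 (f := fun y : ℕ × List ℕ => (y.1, y.2.tail)) (by fun_prop)
  · show A x ∨ B x ↔ _
    rw [hA, hB]
    constructor
    · rintro (⟨f, hf⟩ | ⟨f, hf⟩)
      · refine ⟨fun i => Nat.casesOn i 0 f, fun n => ?_⟩
        cases n with
        | zero => left; rfl
        | succ n =>
          right; left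
          rw [pre_cons]
          exact ⟨rfl, hf n⟩
      · refine ⟨fun i => Nat.casesOn i 1 f, fun n => ?_⟩
        cases n with
        | zero => left; rfl
        | succ n =>
          right; right
          rw [pre_cons]
          exact ⟨by simp, hf n⟩
    · rintro ⟨f, hf⟩
      have hfc : f = fun i => Nat.casesOn i (f 0) fun i => f (i + 1) := by
        funext i
        cases i <;> rfl
      by_cases h0 : f 0 = 0
      · left
        refine ⟨fun i => f (i + 1), fun n => ?_⟩
        have h1 := hf (n + 1)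
        rw [hfc, pre_cons] at h1
        rcases h1 with h1 | h1 | h1
        · exact absurd h1 (by simp)
        · exact h1.2
        · exact absurd h0 h1.1
      · right
        refine ⟨fun i => f (i + 1), fun n => ?_⟩
        have h1 := hf (n + 1)
        rw [hfc, pre_cons] at h1
        rcases h1 with h1 | h1 | h1
        · exact absurd h1 (by simp)
        · exact absurd h1.1 h0
        · exact h1.2

theorem mk_le_cont (s : Set (ℕ → Bool)) : #s ≤ 𝔠 := by
  have h1 : #s ≤ #(ℕ → Bool) := mk_set_le s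
  have h2 : #(ℕ → Bool) = 𝔠 := by simp
  rwa [h2] at h1

theorem unc_complete {π : ℕ → List ℕ → Bool} (hπ : EffEnum π) :
    Complete Sigma11 fun n => ¬ (S π n).Countable := by
  refine ⟨unc_sigma11 hπ, fun X hX => ?_⟩
  obtain ⟨f, hf, hf'⟩ := sigma11_hard hπ hX
  refine ⟨f, hf, fun x => ⟨(hf' x).2.1, fun h => ?_⟩⟩
  by_contra hx
  exact h ((hf' x).2.2 hx)

theorem ctb_complete {π : ℕ → List ℕ → Bool} (hπ : EffEnum π) :
    Complete Pi11 fun n => (S π n).Countable := by
  refine complete_congr (complete_compl (unc_complete hπ)) fun n => ?_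
  rw [not_not]

theorem aleph0_complete {π : ℕ → List ℕ → Bool} (hπ : EffEnum π) :
    Complete Pi11 fun n => #(S π n) = ℵ₀ := by
  refine ⟨?_, fun X hX => ?_⟩
  · have h1 := Sigma11.or (unc_sigma11 hπ) (sigma11_of_sig3 (fin_complete hπ).1)
    have h2 : (fun x => ¬ #(S π x) = ℵ₀) = fun x => ¬ (S π x).Countable ∨ (S π x).Finite := by
      funext x
      apply propext
      rw [← le_aleph0_iff_set_countable, ← lt_aleph0_iff_set_finite]
      constructor
      · intro h
        rcases lt_trichotomy (#(S π x)) ℵ₀ with h3 | h3 | h3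
        · exact Or.inr h3
        · exact absurd h3 h
        · exact Or.inl (not_le.2 h3)
      · rintro (h | h) h3
        · exact h h3.le
        · exact absurd h3 h.ne
    show Sigma11 (fun x => ¬ #(S π x) = ℵ₀)
    rw [h2]
    exact h1
  · obtain ⟨f, hf, hf'⟩ := sigma11_hard hπ hX
    refine ⟨f, hf, fun x => ?_⟩
    obtain ⟨h1, h2, h3⟩ := hf' x
    constructor
    · intro hx
      refine le_antisymm (le_aleph0_iff_set_countable.2 (h3 (not_not.2 hx))) ?_
      rw [← not_lt, lt_aleph0_iff_set_finite]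
      exact h1
    · intro h4
      by_contra hx
      exact h2 hx (le_aleph0_iff_set_countable.1 h4.le)

/-- Cardinality properties with a finite threshold. -/
theorem card_finite {π : ℕ → List ℕ → Bool} (hπ : EffEnum π) :
    (∀ c : ℕ, 1 ≤ c → Complete (Sig 2) (D π fun s => (c : Cardinal) ≤ #s) ∧
      Complete (Pi 2) (D π fun s => #s < c) ∧ Complete Diff2 (D π fun s => #s = c)) ∧
    (∀ c : ℕ, Complete (Sig 2) (D π fun s => (c : Cardinal) < #s) ∧
      Complete (Pi 2) (D π fun s => #s ≤ c)) ∧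
    Complete (Pi 2) (D π fun s => #s = 0) := by
  have hge : ∀ c : ℕ, 1 ≤ c → Complete (Sig 2) (D π fun s => (c : Cardinal) ≤ #s) := by
    intro c hc
    refine complete_congr (ge_complete hπ hc) fun n => ?_
    show (c : ℕ∞) ≤ (S π n).encard ↔ (c : Cardinal) ≤ #(S π n)
    rw [← Set.toENat_cardinalMk, natCast_le_toENat]
  have hlt : ∀ c : ℕ, 1 ≤ c → Complete (Pi 2) (D π fun s => #s < c) := by
    intro c hc
    refine complete_congr (complete_compl (hge c hc)) fun n => ?_
    exact not_le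
  have hlt' : ∀ c : ℕ, Complete (Sig 2) (D π fun s => (c : Cardinal) < #s) := by
    intro c
    refine complete_congr (hge (c + 1) (by omega)) fun n => ?_
    show ((c + 1 : ℕ) : Cardinal) ≤ #(S π n) ↔ (c : Cardinal) < #(S π n)
    rw [Nat.cast_add, Nat.cast_one]
    exact natCast_add_one_le_iff
  have hle : ∀ c : ℕ, Complete (Pi 2) (D π fun s => #s ≤ c) := by
    intro c
    refine complete_congr (complete_compl (hlt' c)) fun n => ?_
    exact not_lt
  refine ⟨fun c hc => ⟨hge c hc, hlt c hc, ?_⟩, fun c => ⟨hlt' c, hle c⟩, ?_⟩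
  · refine complete_congr (eq_complete hπ hc) fun n => ?_
    show (S π n).encard = (c : ℕ∞) ↔ #(S π n) = c
    rw [← Set.toENat_cardinalMk, toENat_eq_natCast]
  · refine complete_congr (hle 0) fun n => ?_
    show #(S π n) ≤ (0 : ℕ) ↔ #(S π n) = 0
    rw [Nat.cast_zero]
    exact nonpos_iff_eq_zero

/-- Cardinality properties with an infinite threshold. -/
theorem card_infinite {π : ℕ → List ℕ → Bool} (hπ : EffEnum π) :
    (Complete (Sig 3) (D π fun s => #s < ℵ₀) ∧ Complete (Pi 3) (D π fun s => ℵ₀ ≤ #s)) ∧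
    (Complete Pi11 (D π fun s => #s = ℵ₀) ∧ Complete Pi11 (D π fun s => #s ≤ ℵ₀) ∧
      Complete Sigma11 (D π fun s => ℵ₀ < #s)) ∧
    (∀ κ : Cardinal, ℵ₀ < κ → κ < 𝔠 → (∀ n, ¬ D π (fun s => #s = κ) n) ∧
      Complete Sigma11 (D π fun s => κ ≤ #s) ∧ Complete Sigma11 (D π fun s => κ < #s) ∧
      Complete Pi11 (D π fun s => #s < κ) ∧ Complete Pi11 (D π fun s => #s ≤ κ)) ∧
    (Complete Sigma11 (D π fun s => #s = 𝔠) ∧ Complete Sigma11 (D π fun s => 𝔠 ≤ #s) ∧
      Complete Pi11 (D π fun s => #s < 𝔠)) := by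
  have hunc : ∀ n, ¬ (S π n).Countable ↔ 𝔠 ≤ #(S π n) := fun n =>
    ⟨cont_of_unc, fun h hc => absurd (h.trans (le_aleph0_iff_set_countable.2 hc))
      (not_le.2 aleph0_lt_continuum)⟩
  have hκ : ∀ κ : Cardinal, ℵ₀ < κ → κ ≤ 𝔠 → ∀ n, (¬ (S π n).Countable ↔ κ ≤ #(S π n)) := by
    intro κ h1 h2 n
    refine ⟨fun h => h2.trans ((hunc n).1 h), fun h hc => ?_⟩
    exact absurd (h.trans (le_aleph0_iff_set_countable.2 hc)) (not_le.2 h1)
  have hκ' : ∀ κ : Cardinal, ℵ₀ ≤ κ → κ < 𝔠 → ∀ n, (¬ (S π n).Countable ↔ κ < #(S π n)) := by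
    intro κ h1 h2 n
    refine ⟨fun h => h2.trans_le ((hunc n).1 h), fun h hc => ?_⟩
    exact absurd (h.trans_le (le_aleph0_iff_set_countable.2 hc)) (not_lt.2 h1)
  have hfin : Complete (Sig 3) (D π fun s => #s < ℵ₀) := by
    refine complete_congr (fin_complete hπ) fun n => ?_
    exact lt_aleph0_iff_set_finite.symm
  refine ⟨⟨hfin, ?_⟩, ⟨aleph0_complete hπ, ?_, ?_⟩, fun κ h1 h2 => ⟨?_, ?_, ?_, ?_, ?_⟩, ?_, ?_, ?_⟩
  · refine complete_congr (complete_compl hfin) fun n => ?_
    exact not_lt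
  · refine complete_congr (ctb_complete hπ) fun n => ?_
    exact le_aleph0_iff_set_countable.symm
  · exact complete_congr (unc_complete hπ) (hκ' ℵ₀ (le_refl _) aleph0_lt_continuum)
  · intro n hn
    have hn' : #(S π n) = κ := hn
    have h3 : ¬ (S π n).Countable := by
      rw [hκ κ h1 h2.le, hn']
    rw [hunc n, hn'] at h3
    exact absurd h3 (not_le.2 h2)
  · exact complete_congr (unc_complete hπ) (hκ κ h1 h2.le)
  · exact complete_congr (unc_complete hπ) (hκ' κ h1.le h2)
  · refine complete_congr (complete_compl (complete_congr (unc_complete hπ) (hκ κ h1 h2.le)))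
      fun n => ?_
    exact not_le
  · refine complete_congr (complete_compl (complete_congr (unc_complete hπ) (hκ' κ h1.le h2)))
      fun n => ?_
    exact not_lt
  · refine complete_congr (unc_complete hπ) fun n => ?_
    rw [hunc n]
    exact ⟨fun h => le_antisymm (mk_le_cont _) h, fun h => (show #(S π n) = 𝔠 from h).ge⟩
  · exact complete_congr (unc_complete hπ) hunc
  · refine complete_congr (complete_compl (complete_congr (unc_complete hπ) hunc)) fun n => ?_
    exact not_le

end Pool.Agent.Q206.DC
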