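import Pool.Agent.Q206.ISC.Upper
import Mathlib.Probability.ProductMeasure
import Mathlib.Probability.Distributions.Uniform
import Mathlib.SetTheory.Cardinal.Continuum

/-!
Index sets for differences of two `Π⁰₁` classes: the definitions.
-/

namespace Pool.Agent.Q206.DC

open Pool.Agent.Helper446.CB Pool.Agent.Q206.ISC MeasureTheory

/-- `Q_e = P_e ∩ 2^ω`, as a set of points of the Cantor space `ℕ → Bool`. -/
def Q (π : ℕ → List ℕ → Bool) (e : ℕ) : Set (ℕ → Bool) := {b | toN b ∈ P π e}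

/-- `D(R) = {⟨a,b⟩ : Q_b ∖ Q_a has R}`. -/
def D (π : ℕ → List ℕ → Bool) (R : Set (ℕ → Bool) → Prop) : ℕ → Prop :=
  fun n => R (Q π n.unpair.2 \ Q π n.unpair.1)

/-- The uniform product measure on the Cantor space. -/
noncomputable def coin : Measure (ℕ → Bool) :=
  Measure.infinitePi fun _ => (PMF.uniformOfFintype Bool).toMeasure

/-- Differences of two `Σ⁰₂` sets. -/
def Diff2 (X : ℕ → Prop) : Prop :=
  ∃ A B : ℕ → Prop, Sig 2 A ∧ Sig 2 B ∧ ∀ x, X x ↔ A x ∧ ¬ B x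

/-- `Σ¹₁` sets, in normal form. -/
def Sigma11 (X : ℕ → Prop) : Prop :=
  ∃ R : ℕ × List ℕ → Prop, ComputablePred R ∧ ∀ x, X x ↔ ∃ f : ℕ → ℕ, ∀ n, R (x, pre f n)

/-- `Π¹₁` sets. -/
def Pi11 (X : ℕ → Prop) : Prop := Sigma11 fun x => ¬ X x

end Pool.Agent.Q206.DC
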