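import Pool.Agent.Q206.DC.CardAll

/-!
The measure of differences: cylinders, clopen approximations.
-/

namespace Pool.Agent.Q206.DC

open Encodable Denumerable Pool.Agent.Helper446 Pool.Agent.Helper446.RE
open Pool.Agent.Helper446.CB Pool.Agent.Q206.ISC
open MeasureTheory

instance : IsProbabilityMeasure coin := by
  unfold coin
  infer_instance

/-- the set of the points above `σ` -/
def cyl (σ : List ℕ) : Set (ℕ → Bool) := {Y | pre (toN Y) σ.length = σ}

theorem cyl_eq_pi {σ : List ℕ} (hσ : ∀ a ∈ σ, a < 2) :
    cyl σ = Set.pi (Finset.range σ.length : Set ℕ) fun i => {(σ[i]?).getD 0 == 1} := by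
  ext Y
  unfold cyl
  simp only [Set.mem_ofPred_eq, Set.mem_pi, Finset.coe_range, Set.mem_Iio, Set.mem_singleton_iff]
  constructor
  · intro h i hi
    have h1 : (pre (toN Y) σ.length)[i]? = σ[i]? := by rw [h]
    have h2 : (σ[i]?).getD 0 = toN Y i := by
      rw [← h1]
      simp [pre, hi]
    rw [h2]
    unfold toN
    cases hY : Y i <;> simp
  · intro h
    apply List.ext_getElem
    · rw [pre_length]
    · intro i h1 h2
      rw [pre_getElem]
      have h3 := h i h2
      have h4 : σ[i]? = some σ[i] := List.getElem?_eq_getElem h2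
      rw [h4, Option.getD_some] at h3
      have h5 := hσ _ (List.getElem_mem h2)
      unfold toN
      rw [h3]
      rcases (by omega : σ[i] = 0 ∨ σ[i] = 1) with h | h <;> simp [h]

theorem measurableSet_cyl {σ : List ℕ} (hσ : ∀ a ∈ σ, a < 2) : MeasurableSet (cyl σ) := by
  rw [cyl_eq_pi hσ]
  exact MeasurableSet.pi (Finset.countable_toSet _) fun i _ => MeasurableSet.singleton _

theorem coin_cyl {σ : List ℕ} (hσ : ∀ a ∈ σ, a < 2) :
    coin.real (cyl σ) = (1 / 2 : ℝ) ^ σ.length := by
  have h1 : coin (cyl σ) = (2⁻¹ : ENNReal) ^ σ.length := by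
    rw [cyl_eq_pi hσ]
    unfold coin
    rw [Measure.infinitePi_pi _ (fun i _ => MeasurableSet.singleton _)]
    have h2 : ∀ c : Bool, (PMF.uniformOfFintype Bool).toMeasure {c} = (2⁻¹ : ENNReal) := by
      intro c
      rw [PMF.toMeasure_apply_singleton _ _ (MeasurableSet.singleton _),
        PMF.uniformOfFintype_apply]
      simp
    simp only [h2]
    simp
  unfold Measure.real
  rw [h1, ENNReal.toReal_pow, ENNReal.toReal_inv]
  simp

theorem bin_nodup (k : ℕ) : (bin k).Nodup := by
  induction k with
  | zero => simp [bin]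
  | succ k ih =>
    unfold bin
    rw [List.nodup_append]
    refine ⟨ih.map fun _ _ h => (List.cons.inj h).2, ih.map fun _ _ h => (List.cons.inj h).2, ?_⟩
    intro a ha b hb hab
    simp only [List.mem_map] at ha hb
    obtain ⟨σ, -, rfl⟩ := ha
    obtain ⟨τ, -, rfl⟩ := hb
    exact absurd (List.cons.inj hab).1 (by omega)

/-- number of strings of length `k` with a property -/
def cnt (k : ℕ) (p : List ℕ → Bool) : ℕ := ((bin k).filter p).length

/-- the clopen set of a property of strings of length `k` -/
def clo (k : ℕ) (p : List ℕ → Bool) : Set (ℕ → Bool) := {Y | p (pre (toN Y) k) = true}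

theorem clo_eq (k : ℕ) (p : List ℕ → Bool) :
    clo k p = ⋃ σ ∈ ((bin k).filter p).toFinset, cyl σ := by
  ext Y
  simp only [clo, cyl, Set.mem_ofPred_eq, Set.mem_iUnion, List.mem_toFinset, List.mem_filter,
    exists_prop]
  constructor
  · intro h
    exact ⟨pre (toN Y) k, ⟨pre_mem_bin (toN_mem Y) k, h⟩, by rw [pre_length]⟩
  · rintro ⟨σ, ⟨h1, h2⟩, h3⟩
    rw [(mem_bin.1 h1).1] at h3
    rw [h3]
    exact h2

theorem measurableSet_clo (k : ℕ) (p : List ℕ → Bool) : MeasurableSet (clo k p) := by
  rw [clo_eq]
  refine Finset.measurableSet_biUnion _ fun σ hσ => measurableSet_cyl ?_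
  rw [List.mem_toFinset, List.mem_filter] at hσ
  exact (mem_bin.1 hσ.1).2

theorem coin_clo (k : ℕ) (p : List ℕ → Bool) : coin.real (clo k p) = cnt k p / 2 ^ k := by
  have hb : ∀ σ ∈ ((bin k).filter p).toFinset, σ.length = k ∧ ∀ a ∈ σ, a < 2 := by
    intro σ hσ
    rw [List.mem_toFinset, List.mem_filter] at hσ
    exact mem_bin.1 hσ.1
  rw [clo_eq, measureReal_biUnion_finset]
  · rw [Finset.sum_congr rfl (g := fun _ => (1 / 2 : ℝ) ^ k)]
    · rw [Finset.sum_const, List.toFinset_card_of_nodup ((bin_nodup k).filter p)]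
      unfold cnt
      rw [nsmul_eq_mul, one_div, inv_pow, div_eq_mul_inv]
    · intro σ hσ
      rw [coin_cyl (hb σ hσ).2, (hb σ hσ).1]
  · intro σ hσ τ hτ hst
    refine Set.disjoint_left.2 fun Y h1 h2 => hst ?_
    have h3 : pre (toN Y) σ.length = σ := h1
    have h4 : pre (toN Y) τ.length = τ := h2
    rw [(hb σ hσ).1] at h3
    rw [(hb τ hτ).1] at h4
    rw [← h3, ← h4]
  · intro σ hσ
    exact measurableSet_cyl (hb σ hσ).2

/-- the value of a string -/
def val (σ : List ℕ) : ℕ := σ.foldl (fun v a => 2 * v + a) 0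

theorem foldl_val (σ : List ℕ) (v : ℕ) :
    σ.foldl (fun v a => 2 * v + a) v = v * 2 ^ σ.length + val σ := by
  induction σ generalizing v with
  | nil => simp [val]
  | cons a σ ih =>
    unfold val
    simp only [List.foldl_cons, List.length_cons]
    rw [ih, ih (2 * 0 + a)]
    ring

theorem val_cons (a : ℕ) (σ : List ℕ) : val (a :: σ) = a * 2 ^ σ.length + val σ := by
  conv_lhs => unfold val
  simp only [List.foldl_cons]
  rw [foldl_val]
  simp

theorem val_pre_succ (X : ℕ → ℕ) (k : ℕ) : val (pre X (k + 1)) = 2 * val (pre X k) + X k := by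
  rw [pre_succ]
  simp [val]

theorem map_val_bin (k : ℕ) : (bin k).map val = List.range (2 ^ k) := by
  induction k with
  | zero => simp [bin, val]
  | succ k ih =>
    unfold bin
    rw [List.map_append, List.map_map, List.map_map]
    have h1 : (bin k).map (val ∘ fun σ => 0 :: σ) = List.range (2 ^ k) := by
      rw [← ih]
      apply List.map_congr_left
      intro σ _
      simp [val_cons]
    have h2 : (bin k).map (val ∘ fun σ => 1 :: σ) = (List.range (2 ^ k)).map (2 ^ k + ·) := by
      rw [← ih, List.map_map]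
      apply List.map_congr_left
      intro σ hσ
      simp [val_cons, (mem_bin.1 hσ).1]
    rw [h1, h2, pow_succ, Nat.mul_two, List.range_add]

theorem cnt_val_lt (k c : ℕ) : cnt k (fun σ => decide (val σ < c)) = min c (2 ^ k) := by
  unfold cnt
  have h1 : ((bin k).filter fun σ => decide (val σ < c)).length =
      (((bin k).map val).filter fun v => decide (v < c)).length := by
    rw [List.filter_map, List.length_map]
    rfl
  rw [h1, map_val_bin]
  have h2 : ∀ n, ((List.range n).filter fun v => decide (v < c)).length = min c n := by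
    intro n
    induction n with
    | zero => simp
    | succ n ih =>
      rw [List.range_succ, List.filter_append, List.length_append, ih]
      by_cases h : n < c
      · simp [h]; omega
      · simp [h]; omega
  exact h2 _

theorem val_lt {σ : List ℕ} {k : ℕ} (h : σ ∈ bin k) : val σ < 2 ^ k := by
  have : val σ ∈ (bin k).map val := List.mem_map_of_mem h
  rw [map_val_bin, List.mem_range] at this
  exact this

theorem exists_val {k i : ℕ} (h : i < 2 ^ k) : ∃ σ ∈ bin k, val σ = i := by
  have : i ∈ (bin k).map val := by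
    rw [map_val_bin, List.mem_range]; exact h
  simpa using this

end Pool.Agent.Q206.DC
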