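import Pool.Agent.Q206.DC.Meas

/-!
The measure of a difference, compared with dyadic rationals.
-/

namespace Pool.Agent.Q206.DC

open Encodable Denumerable Pool.Agent.Helper446 Pool.Agent.Helper446.RE
open Pool.Agent.Helper446.CB Pool.Agent.Q206.ISC
open MeasureTheory Filter Topology

theorem tendsto_iInter {s : ℕ → Set (ℕ → Bool)} (hs : ∀ i, MeasurableSet (s i))
    (hanti : Antitone s) :
    Tendsto (fun i => coin.real (s i)) atTop (𝓝 (coin.real (⋂ i, s i))) := by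
  have h1 := tendsto_measure_iInter_atTop (μ := coin) (fun i => (hs i).nullMeasurableSet) hanti
    ⟨0, measure_ne_top _ _⟩
  exact (ENNReal.tendsto_toReal (measure_ne_top _ _)).comp h1

theorem tendsto_iUnion {s : ℕ → Set (ℕ → Bool)} (hmono : Monotone s) :
    Tendsto (fun i => coin.real (s i)) atTop (𝓝 (coin.real (⋃ i, s i))) := by
  have h1 := tendsto_measure_iUnion_atTop (μ := coin) hmono
  exact (ENNReal.tendsto_toReal (measure_ne_top _ _)).comp h1

/-- clopen approximation of `Q_e` -/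
def Bk (π : ℕ → List ℕ → Bool) (e k : ℕ) : Set (ℕ → Bool) := clo k (good π e)

theorem Bk_anti (π : ℕ → List ℕ → Bool) (e : ℕ) : Antitone (Bk π e) := by
  intro m n hmn Y hY
  have h1 : good π e (pre (toN Y) n) = true := hY
  show good π e (pre (toN Y) m) = true
  rw [← pre_take _ _ _ hmn]
  exact good_take h1 m

theorem iInter_Bk (π : ℕ → List ℕ → Bool) (e : ℕ) : ⋂ k, Bk π e k = Q π e := by
  ext Y
  rw [Set.mem_iInter, mem_Q_good]
  rfl

theorem measurableSet_Bk (π : ℕ → List ℕ → Bool) (e k : ℕ) : MeasurableSet (Bk π e k) :=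
  measurableSet_clo k _

theorem measurableSet_Q (π : ℕ → List ℕ → Bool) (e : ℕ) : MeasurableSet (Q π e) := by
  rw [← iInter_Bk]
  exact MeasurableSet.iInter fun k => measurableSet_Bk π e k

theorem measurableSet_S (π : ℕ → List ℕ → Bool) (z : ℕ) : MeasurableSet (S π z) :=
  (measurableSet_Q π _).diff (measurableSet_Q π _)

/-- clopen approximation of the difference -/
def V (π : ℕ → List ℕ → Bool) (z k n : ℕ) : Set (ℕ → Bool) :=
  Bk π z.unpair.2 k \ Bk π z.unpair.1 n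

/-- the number of strings of the clopen approximation -/
def cV (π : ℕ → List ℕ → Bool) (z k n : ℕ) : ℕ :=
  cnt (max k n) fun τ => good π z.unpair.2 (τ.take k) && !good π z.unpair.1 (τ.take n)

theorem coin_V (π : ℕ → List ℕ → Bool) (z k n : ℕ) :
    coin.real (V π z k n) = cV π z k n / 2 ^ max k n := by
  have h : V π z k n = clo (max k n)
      fun τ => good π z.unpair.2 (τ.take k) && !good π z.unpair.1 (τ.take n) := by
    ext Y
    unfold V Bk clo
    simp only [Set.mem_sdiff, Set.mem_ofPred_eq]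
    rw [pre_take _ _ _ (le_max_left k n), pre_take _ _ _ (le_max_right k n)]
    simp
  rw [h, coin_clo]
  rfl

theorem lt_meas_iff (π : ℕ → List ℕ → Bool) (z : ℕ) (q : ℝ) : q < coin.real (S π z) ↔
    ∃ n l : ℕ, ∀ k, q + 1 / 2 ^ l ≤ coin.real (V π z k n) := by
  have hanti : ∀ n, Antitone fun k => V π z k n := fun n k k' hk =>
    Set.sdiff_subset_sdiff_left (Bk_anti π _ hk)
  have hmeas : ∀ n k, MeasurableSet (V π z k n) := fun n k =>
    (measurableSet_Bk π _ k).diff (measurableSet_Bk π _ n)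
  have hinter : ∀ n, ⋂ k, V π z k n = Q π z.unpair.2 \ Bk π z.unpair.1 n := by
    intro n
    rw [← iInter_Bk π z.unpair.2]
    ext Y
    simp only [V, Set.mem_iInter, Set.mem_sdiff]
    constructor
    · intro h
      exact ⟨fun k => (h k).1, (h 0).2⟩
    · rintro ⟨h1, h2⟩ k
      exact ⟨h1 k, h2⟩
  have hmono : Monotone fun n => Q π z.unpair.2 \ Bk π z.unpair.1 n := fun n n' hn =>
    Set.sdiff_subset_sdiff_right (Bk_anti π _ hn)
  have hunion : ⋃ n, Q π z.unpair.2 \ Bk π z.unpair.1 n = S π z := by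
    unfold S
    rw [← iInter_Bk π z.unpair.1, Set.sdiff_iInter]
  constructor
  · intro h
    obtain ⟨l, hl⟩ := exists_pow_lt_of_lt_one (show 0 < coin.real (S π z) - q by linarith)
      (show (1 / 2 : ℝ) < 1 by norm_num)
    have h1 := tendsto_iUnion hmono
    rw [hunion] at h1
    have h2 : q + (1 / 2 : ℝ) ^ l < coin.real (S π z) := by linarith
    obtain ⟨n, hn⟩ := (h1.eventually (lt_mem_nhds h2)).exists
    refine ⟨n, l, fun k => ?_⟩
    have h3 : coin.real (Q π z.unpair.2 \ Bk π z.unpair.1 n) ≤ coin.real (V π z k n) := by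
      rw [← hinter n]
      exact measureReal_mono (Set.iInter_subset _ k)
    rw [one_div_pow] at hn
    linarith
  · rintro ⟨n, l, h⟩
    have h1 := tendsto_iInter (hmeas n) (hanti n)
    rw [hinter n] at h1
    have h2 : q + 1 / 2 ^ l ≤ coin.real (Q π z.unpair.2 \ Bk π z.unpair.1 n) :=
      ge_of_tendsto' h1 h
    have h3 : coin.real (Q π z.unpair.2 \ Bk π z.unpair.1 n) ≤ coin.real (S π z) := by
      rw [← hunion]
      exact measureReal_mono (Set.subset_iUnion (fun n => Q π z.unpair.2 \ Bk π z.unpair.1 n) n)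
    have h4 : (0 : ℝ) < 1 / 2 ^ l := by positivity
    linarith

theorem meas_lt_iff (π : ℕ → List ℕ → Bool) (z : ℕ) (q : ℝ) : coin.real (S π z) < q ↔
    ∃ k l : ℕ, ∀ n, coin.real (V π z k n) + 1 / 2 ^ l ≤ q := by
  have hmono : ∀ k, Monotone fun n => V π z k n := fun k n n' hn =>
    Set.sdiff_subset_sdiff_right (Bk_anti π _ hn)
  have hunion : ∀ k, ⋃ n, V π z k n = Bk π z.unpair.2 k \ Q π z.unpair.1 := by
    intro k
    rw [← iInter_Bk π z.unpair.1, Set.sdiff_iInter]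
    rfl
  have hanti : Antitone fun k => Bk π z.unpair.2 k \ Q π z.unpair.1 := fun k k' hk =>
    Set.sdiff_subset_sdiff_left (Bk_anti π _ hk)
  have hmeas : ∀ k, MeasurableSet (Bk π z.unpair.2 k \ Q π z.unpair.1) := fun k =>
    (measurableSet_Bk π _ k).diff (measurableSet_Q π _)
  have hinter : ⋂ k, Bk π z.unpair.2 k \ Q π z.unpair.1 = S π z := by
    unfold S
    rw [← iInter_Bk π z.unpair.2]
    ext Y
    simp only [Set.mem_iInter, Set.mem_sdiff]
    constructor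
    · intro h
      exact ⟨fun k => (h k).1, (h 0).2⟩
    · rintro ⟨h1, h2⟩ k
      exact ⟨h1 k, h2⟩
  constructor
  · intro h
    obtain ⟨l, hl⟩ := exists_pow_lt_of_lt_one (show 0 < q - coin.real (S π z) by linarith)
      (show (1 / 2 : ℝ) < 1 by norm_num)
    have h1 := tendsto_iInter hmeas hanti
    rw [hinter] at h1
    have h2 : coin.real (S π z) < q - (1 / 2 : ℝ) ^ l := by linarith
    obtain ⟨k, hk⟩ := (h1.eventually (gt_mem_nhds h2)).exists
    refine ⟨k, l, fun n => ?_⟩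
    have h3 : coin.real (V π z k n) ≤ coin.real (Bk π z.unpair.2 k \ Q π z.unpair.1) := by
      rw [← hunion k]
      exact measureReal_mono (Set.subset_iUnion (fun n => V π z k n) n)
    rw [one_div_pow] at hk
    linarith
  · rintro ⟨k, l, h⟩
    have h1 := tendsto_iUnion (hmono k)
    rw [hunion k] at h1
    have h2 : coin.real (Bk π z.unpair.2 k \ Q π z.unpair.1) ≤ q - 1 / 2 ^ l :=
      le_of_tendsto' h1 fun n => by linarith [h n]
    have h3 : coin.real (S π z) ≤ coin.real (Bk π z.unpair.2 k \ Q π z.unpair.1) := by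
      rw [← hinter]
      exact measureReal_mono (Set.iInter_subset _ k)
    have h4 : (0 : ℝ) < 1 / 2 ^ l := by positivity
    linarith

section comp

variable {α β : Type} [Primcodable α] [Primcodable β]

theorem cfilter_length {l : α → List β} {p : α → β → Bool} (hl : Computable l)
    (hp : Computable fun x : α × β => p x.1 x.2) :
    Computable fun a => ((l a).filter (p a)).length := by
  have h1 := list_foldl (f := l) (g := fun _ => (0 : ℕ))
    (h := fun a (q : ℕ × β) => cond (p a q.2) (q.1 + 1) q.1) hl (Computable.const 0) (by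
      unfold Computable₂
      have h2 : Computable fun y : α × (ℕ × β) => p y.1 y.2.2 :=
        hp.comp (g := fun y : α × (ℕ × β) => (y.1, y.2.2)) (by fun_prop)
      exact ccond h2 (by fun_prop) (by fun_prop))
  refine h1.of_eq fun a => ?_
  have : ∀ (l : List β) (acc : ℕ), l.foldl (fun s b => cond (p a b) (s + 1) s) acc =
      acc + (l.filter (p a)).length := by
    intro l
    induction l with
    | nil => intro acc; simp
    | cons b l ih =>
      intro acc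
      rw [List.foldl_cons, ih]
      cases hb : p a b
      · simp [hb]
      · simp [hb]; omega
  rw [this]; simp

@[fun_prop] theorem cpow2 {f : α → ℕ} (hf : Computable f) : Computable fun a => 2 ^ f a := by
  have h : Primrec₂ fun a b : ℕ => a ^ b := Primrec₂.unpaired'.1 Nat.Primrec.pow
  exact h.to_comp.comp (Computable.const 2) hf

end comp

theorem cV_comp {π : ℕ → List ℕ → Bool} (hπ : EffEnum π) :
    Computable fun p : (ℕ × ℕ) × ℕ => cV π p.1.1 p.1.2 p.2 := by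
  unfold cV cnt
  have hgood := good_comp hπ
  have hb : Computable fun p : (ℕ × ℕ) × ℕ => bin (max p.1.2 p.2) := by
    have := bin_comp
    fun_prop
  refine cfilter_length (p := fun (p : (ℕ × ℕ) × ℕ) (τ : List ℕ) =>
    good π p.1.1.unpair.2 (τ.take p.1.2) && !good π p.1.1.unpair.1 (τ.take p.2)) hb ?_
  have h1 : Computable fun x : ((ℕ × ℕ) × ℕ) × List ℕ =>
      good π x.1.1.1.unpair.2 (x.2.take x.1.1.2) :=
    hgood.comp (g := fun x : ((ℕ × ℕ) × ℕ) × List ℕ =>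
      (x.1.1.1.unpair.2, x.2.take x.1.1.2)) (by fun_prop)
  have h2 : Computable fun x : ((ℕ × ℕ) × ℕ) × List ℕ =>
      good π x.1.1.1.unpair.1 (x.2.take x.1.2) :=
    hgood.comp (g := fun x : ((ℕ × ℕ) × ℕ) × List ℕ =>
      (x.1.1.1.unpair.1, x.2.take x.1.2)) (by fun_prop)
  fun_prop

theorem dyadic_le {i j l c m : ℕ} : (i : ℝ) / 2 ^ j + 1 / 2 ^ l ≤ (c : ℝ) / 2 ^ m ↔
    (i * 2 ^ l + 2 ^ j) * 2 ^ m ≤ c * (2 ^ j * 2 ^ l) := by
  rw [div_add_div _ _ (by positivity) (by positivity), div_le_div_iff₀ (by positivity)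
    (by positivity)]
  rw [← Nat.cast_le (α := ℝ)]
  push_cast
  constructor <;> intro h <;> linarith

theorem dyadic_le' {i j l c m : ℕ} : (c : ℝ) / 2 ^ m + 1 / 2 ^ l ≤ (i : ℝ) / 2 ^ j ↔
    (c * 2 ^ l + 2 ^ m) * 2 ^ j ≤ i * (2 ^ m * 2 ^ l) := dyadic_le

/-- being above a dyadic rational -/
theorem gt_sig {π : ℕ → List ℕ → Bool} (hπ : EffEnum π) :
    Sig 2 fun p : ℕ × (ℕ × ℕ) => (p.2.1 : ℝ) / 2 ^ p.2.2 < coin.real (S π p.1) := by
  refine Sig.of_iff (p := fun p : ℕ × (ℕ × ℕ) => ∃ n l : ℕ, ∀ k,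
    (p.2.1 * 2 ^ l + 2 ^ p.2.2) * 2 ^ max k n ≤ cV π p.1 k n * (2 ^ p.2.2 * 2 ^ l)) ?_ ?_
  · refine Sig.exN (n := 1) (p := fun (p : ℕ × (ℕ × ℕ)) (n : ℕ) => ∃ l : ℕ, ∀ k,
      (p.2.1 * 2 ^ l + 2 ^ p.2.2) * 2 ^ max k n ≤ cV π p.1 k n * (2 ^ p.2.2 * 2 ^ l)) ?_
    refine Sig.exN (n := 1) (p := fun (p : (ℕ × (ℕ × ℕ)) × ℕ) (l : ℕ) => ∀ k,
      (p.1.2.1 * 2 ^ l + 2 ^ p.1.2.2) * 2 ^ max k p.2 ≤
        cV π p.1.1 k p.2 * (2 ^ p.1.2.2 * 2 ^ l)) ?_
    refine Pi.sig (Pi.all (n := 0) (p := fun (p : ((ℕ × (ℕ × ℕ)) × ℕ) × ℕ) (k : ℕ) =>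
      (p.1.1.2.1 * 2 ^ p.2 + 2 ^ p.1.1.2.2) * 2 ^ max k p.1.2 ≤
        cV π p.1.1.1 k p.1.2 * (2 ^ p.1.1.2.2 * 2 ^ p.2)) ?_)
    refine Pi.of_cp (RE.cp_le ?_ ?_)
    · fun_prop
    · have h1 : Computable fun x : (((ℕ × (ℕ × ℕ)) × ℕ) × ℕ) × ℕ =>
          cV π x.1.1.1.1 x.2 x.1.1.2 :=
        (cV_comp hπ).comp (g := fun x : (((ℕ × (ℕ × ℕ)) × ℕ) × ℕ) × ℕ =>
          ((x.1.1.1.1, x.2), x.1.1.2)) (by fun_prop)
      fun_prop
  · intro p
    rw [lt_meas_iff]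
    simp only [coin_V, dyadic_le]

/-- being below a dyadic rational -/
theorem lt_sig {π : ℕ → List ℕ → Bool} (hπ : EffEnum π) :
    Sig 2 fun p : ℕ × (ℕ × ℕ) => coin.real (S π p.1) < (p.2.1 : ℝ) / 2 ^ p.2.2 := by
  refine Sig.of_iff (p := fun p : ℕ × (ℕ × ℕ) => ∃ k l : ℕ, ∀ n,
    (cV π p.1 k n * 2 ^ l + 2 ^ max k n) * 2 ^ p.2.2 ≤ p.2.1 * (2 ^ max k n * 2 ^ l)) ?_ ?_
  · refine Sig.exN (n := 1) (p := fun (p : ℕ × (ℕ × ℕ)) (k : ℕ) => ∃ l : ℕ, ∀ n,
      (cV π p.1 k n * 2 ^ l + 2 ^ max k n) * 2 ^ p.2.2 ≤ p.2.1 * (2 ^ max k n * 2 ^ l)) ?_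
    refine Sig.exN (n := 1) (p := fun (p : (ℕ × (ℕ × ℕ)) × ℕ) (l : ℕ) => ∀ n,
      (cV π p.1.1 p.2 n * 2 ^ l + 2 ^ max p.2 n) * 2 ^ p.1.2.2 ≤
        p.1.2.1 * (2 ^ max p.2 n * 2 ^ l)) ?_
    refine Pi.sig (Pi.all (n := 0) (p := fun (p : ((ℕ × (ℕ × ℕ)) × ℕ) × ℕ) (n : ℕ) =>
      (cV π p.1.1.1 p.1.2 n * 2 ^ p.2 + 2 ^ max p.1.2 n) * 2 ^ p.1.1.2.2 ≤
        p.1.1.2.1 * (2 ^ max p.1.2 n * 2 ^ p.2)) ?_)
    refine Pi.of_cp (RE.cp_le ?_ ?_)
    · have h1 : Computable fun x : (((ℕ × (ℕ × ℕ)) × ℕ) × ℕ) × ℕ =>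
          cV π x.1.1.1.1 x.1.1.2 x.2 :=
        (cV_comp hπ).comp (g := fun x : (((ℕ × (ℕ × ℕ)) × ℕ) × ℕ) × ℕ =>
          ((x.1.1.1.1, x.1.1.2), x.2)) (by fun_prop)
      fun_prop
    · fun_prop
  · intro p
    rw [meas_lt_iff]
    simp only [coin_V, dyadic_le']

/-- a dyadic rational strictly between two reals, the first one nonnegative -/
theorem exists_dyadic {x y : ℝ} (hx : 0 ≤ x) (hxy : x < y) :
    ∃ i j : ℕ, x < (i : ℝ) / 2 ^ j ∧ (i : ℝ) / 2 ^ j < y := by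
  obtain ⟨j, hj⟩ := exists_pow_lt_of_lt_one (show 0 < (y - x) / 2 by linarith)
    (show (1 / 2 : ℝ) < 1 by norm_num)
  rw [one_div_pow] at hj
  refine ⟨⌊x * 2 ^ j⌋₊ + 1, j, ?_, ?_⟩
  · rw [lt_div_iff₀ (by positivity)]
    push_cast
    exact Nat.lt_floor_add_one _
  · rw [div_lt_iff₀ (by positivity)]
    push_cast
    have h1 : (⌊x * 2 ^ j⌋₊ : ℝ) ≤ x * 2 ^ j := Nat.floor_le (by positivity)
    have h2 : (1 : ℝ) < (y - x) / 2 * 2 ^ j := by
      rw [div_lt_iff₀ (by positivity)] at hj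
      linarith
    nlinarith

/-- the right cut -/
def RightCut (r : ℝ) (p : ℕ × ℕ) : Prop := r < (p.1 : ℝ) / 2 ^ p.2
/-- the left cut -/
def LeftCut (r : ℝ) (p : ℕ × ℕ) : Prop := (p.1 : ℝ) / 2 ^ p.2 < r

theorem D_gt_sig {π : ℕ → List ℕ → Bool} (hπ : EffEnum π) {r : ℝ} (hr : 0 ≤ r) {n : ℕ}
    (hn : 2 ≤ n) (h : Sig n (RightCut r)) : Sig n (D π fun s => r < coin.real s) := by
  obtain ⟨n, rfl⟩ : ∃ k, n = k + 1 := ⟨n - 1, by omega⟩
  refine Sig.of_iff (p := fun z => ∃ q : ℕ × ℕ, RightCut r q ∧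
    (q.1 : ℝ) / 2 ^ q.2 < coin.real (S π z)) ?_ ?_
  · refine Sig.ex (n := n) (p := fun (z : ℕ) (q : ℕ × ℕ) => RightCut r q ∧
      (q.1 : ℝ) / 2 ^ q.2 < coin.real (S π z)) (Sig.and ?_ ?_)
    · exact h.comp (f := fun y : ℕ × (ℕ × ℕ) => y.2) (by fun_prop)
    · exact Sig.mono hn (gt_sig hπ)
  · intro z
    constructor
    · rintro ⟨q, h1, h2⟩
      exact lt_trans h1 h2
    · intro h1
      obtain ⟨i, j, h2, h3⟩ := exists_dyadic hr h1
      exact ⟨(i, j), h2, h3⟩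

theorem D_lt_sig {π : ℕ → List ℕ → Bool} (hπ : EffEnum π) {r : ℝ} {n : ℕ}
    (hn : 2 ≤ n) (h : Sig n (LeftCut r)) : Sig n (D π fun s => coin.real s < r) := by
  obtain ⟨n, rfl⟩ : ∃ k, n = k + 1 := ⟨n - 1, by omega⟩
  refine Sig.of_iff (p := fun z => ∃ q : ℕ × ℕ, LeftCut r q ∧
    coin.real (S π z) < (q.1 : ℝ) / 2 ^ q.2) ?_ ?_
  · refine Sig.ex (n := n) (p := fun (z : ℕ) (q : ℕ × ℕ) => LeftCut r q ∧
      coin.real (S π z) < (q.1 : ℝ) / 2 ^ q.2) (Sig.and ?_ ?_)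
    · exact h.comp (f := fun y : ℕ × (ℕ × ℕ) => y.2) (by fun_prop)
    · exact Sig.mono hn (lt_sig hπ)
  · intro z
    constructor
    · rintro ⟨q, h1, h2⟩
      exact lt_trans h2 h1
    · intro h1
      obtain ⟨i, j, h2, h3⟩ := exists_dyadic measureReal_nonneg h1
      exact ⟨(i, j), h3, h2⟩

end Pool.Agent.Q206.DC
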