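import Pool.Agent.Q206.DC.MeasHard

/-!
All measure properties.
-/

namespace Pool.Agent.Q206.DC

open Encodable Denumerable Pool.Agent.Helper446 Pool.Agent.Helper446.RE
open Pool.Agent.Helper446.CB Pool.Agent.Q206.ISC
open MeasureTheory Filter Topology

theorem val_grow (X : ℕ → ℕ) (hX : X ∈ Cantor) {k n : ℕ} (hkn : k ≤ n) :
    val (pre X n) + 1 ≤ (val (pre X k) + 1) * 2 ^ (n - k) := by
  induction n, hkn using Nat.le_induction with
  | base => simp
  | succ n hkn ih =>
    rw [val_pre_succ, show n + 1 - k = (n - k) + 1 by omega, pow_succ]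
    have := hX n
    have h2 : (val (pre X k) + 1) * (2 ^ (n - k) * 2) = 2 * ((val (pre X k) + 1) * 2 ^ (n - k)) := by
      ring
    rw [h2]
    omega

theorem coin_Lex_le {c : ℕ → ℕ} (hc : IsBound c) (n : ℕ) :
    coin.real (Lex c) * 2 ^ n ≤ c n := by
  have h1 : coin.real (Lex c) ≤ coin.real (LexK c n) := by
    rw [Lex_eq]
    exact measureReal_mono (Set.iInter_subset _ n)
  rw [coin_LexK hc, le_div_iff₀ (by positivity)] at h1
  exact h1

/-- a cylinder inside an initial segment -/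
theorem cyl_sub_Lex {c : ℕ → ℕ} (hc : IsBound c) {σ : List ℕ}
    (h : ((val σ : ℝ) + 1) / 2 ^ σ.length ≤ coin.real (Lex c)) : cyl σ ⊆ Lex c := by
  intro Y hY
  have hY' : pre (toN Y) σ.length = σ := hY
  rw [mem_Lex_of hc σ.length]
  intro n hn
  have h1 := val_grow (toN Y) (toN_mem Y) hn
  rw [hY'] at h1
  have h2 := coin_Lex_le hc n
  rw [div_le_iff₀ (by positivity)] at h
  have h3 : ((val σ : ℝ) + 1) * 2 ^ (n - σ.length) ≤ c n := by
    refine le_trans ?_ h2
    have h4 : (2 : ℝ) ^ n = 2 ^ σ.length * 2 ^ (n - σ.length) := by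
      rw [← pow_add]; congr 1; omega
    rw [h4, ← mul_assoc]
    exact mul_le_mul_of_nonneg_right h (by positivity)
  have h5 : (val σ + 1) * 2 ^ (n - σ.length) ≤ c n := by exact_mod_cast h3
  omega

section

variable (π : ℕ → List ℕ → Bool) (z : ℕ)

/-- bounds for the larger class -/
def cA : ℕ → ℕ := fun k => cnt k (good π z.unpair.2)
/-- bounds for the smaller class -/
def cB : ℕ → ℕ := fun k => cnt k fun τ => good π z.unpair.2 τ && good π z.unpair.1 τ

end

theorem cA_bound {π : ℕ → List ℕ → Bool} (hπ : EffEnum π) (z : ℕ) : IsBound (cA π z) ∧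
    coin.real (Lex (cA π z)) = coin.real (Q π z.unpair.2) := by
  have h := isBound_cnt (p := good π z.unpair.2)
    ((good_comp hπ).comp (g := fun τ : List ℕ => (z.unpair.2, τ)) (by fun_prop))
    (fun τ m h => good_take h m)
  refine ⟨h.1, h.2.trans ?_⟩
  congr 1
  ext Y
  rw [mem_Q_good]
  rfl

theorem cB_bound {π : ℕ → List ℕ → Bool} (hπ : EffEnum π) (z : ℕ) : IsBound (cB π z) ∧
    coin.real (Lex (cB π z)) = coin.real (Q π z.unpair.2 ∩ Q π z.unpair.1) := by
  have h1 := (good_comp hπ).comp (g := fun τ : List ℕ => (z.unpair.2, τ)) (by fun_prop)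
  have h2 := (good_comp hπ).comp (g := fun τ : List ℕ => (z.unpair.1, τ)) (by fun_prop)
  have h := isBound_cnt (p := fun τ => good π z.unpair.2 τ && good π z.unpair.1 τ)
    (cand h1 h2) (fun τ m h => by
      rw [Bool.and_eq_true] at h ⊢
      exact ⟨good_take h.1 m, good_take h.2 m⟩)
  refine ⟨h.1, h.2.trans ?_⟩
  congr 1
  ext Y
  rw [Set.mem_inter_iff, mem_Q_good, mem_Q_good]
  simp only [Set.mem_ofPred_eq, Bool.and_eq_true]
  exact forall_and

theorem Lex_sub {π : ℕ → List ℕ → Bool} (z : ℕ) : Lex (cB π z) ⊆ Lex (cA π z) := by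
  intro Y hY k
  refine lt_of_lt_of_le (hY k) ?_
  have h1 : coin.real (clo k fun τ => good π z.unpair.2 τ && good π z.unpair.1 τ) ≤
      coin.real (clo k (good π z.unpair.2)) := by
    refine measureReal_mono ?_
    intro Y hY
    have : (good π z.unpair.2 (pre (toN Y) k) && good π z.unpair.1 (pre (toN Y) k)) = true := hY
    rw [Bool.and_eq_true] at this
    exact this.1
  rw [coin_clo, coin_clo, div_le_div_iff_of_pos_right (by positivity)] at h1
  exact_mod_cast h1

theorem coin_Lex_diff {π : ℕ → List ℕ → Bool} (hπ : EffEnum π) (z : ℕ) :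
    coin.real (Lex (cA π z) \ Lex (cB π z)) = coin.real (S π z) := by
  rw [measureReal_sdiff (Lex_sub z) (measurableSet_Lex _), (cA_bound hπ z).2, (cB_bound hπ z).2]
  have h := measureReal_inter_add_sdiff (μ := coin) (s := Q π z.unpair.2)
    (measurableSet_Q π z.unpair.1)
  unfold S
  linarith

/-- Lowering an attained measure. -/
theorem dec_family {π : ℕ → List ℕ → Bool} (hπ : EffEnum π) (z : ℕ)
    (hpos : 0 < coin.real (S π z)) {X : ℕ → Prop} (hX : Sig 2 X) :
    ∃ g : ℕ → ℕ, Computable g ∧ ∀ x, (X x → coin.real (S π (g x)) < coin.real (S π z)) ∧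
      (¬ X x → coin.real (S π (g x)) = coin.real (S π z)) := by
  obtain ⟨hA1, hA2⟩ := cA_bound hπ z
  obtain ⟨hB1, hB2⟩ := cB_bound hπ z
  have hdiff := coin_Lex_diff hπ z
  have hlt : coin.real (Lex (cB π z)) < coin.real (Lex (cA π z)) := by
    rw [measureReal_sdiff (Lex_sub z) (measurableSet_Lex _)] at hdiff
    linarith
  set α := coin.real (Lex (cA π z)) with hα
  set β := coin.real (Lex (cB π z)) with hβ
  -- the cylinder
  have hk : ∃ k, (cB π z k : ℝ) / 2 ^ k + 1 / 2 ^ k ≤ α := by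
    have h1 := tendsto_Lex hB1
    have h2 : Tendsto (fun k : ℕ => (1 / 2 : ℝ) ^ k) atTop (𝓝 0) :=
      tendsto_pow_atTop_nhds_zero_of_lt_one (by norm_num) (by norm_num)
    have h3 := h1.eventually (gt_mem_nhds (show coin.real (Lex (cB π z)) < (α + β) / 2 by
      rw [← hβ]; linarith))
    have h4 := h2.eventually (gt_mem_nhds (show (0 : ℝ) < (α - β) / 2 by linarith))
    obtain ⟨k, hk1, hk2⟩ := (h3.and h4).exists
    rw [one_div_pow] at hk2
    exact ⟨k, by linarith⟩
  obtain ⟨k, hk⟩ := hk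
  have hα1 : α ≤ 1 := measureReal_le_one
  have hi : cB π z k < 2 ^ k := by
    rw [← add_div] at hk
    have := hk.trans hα1
    rw [div_le_one (by positivity)] at this
    have h2 : cB π z k + 1 ≤ 2 ^ k := by exact_mod_cast this
    omega
  obtain ⟨σ, hσ, hval⟩ := exists_val hi
  obtain ⟨hlen, hbin⟩ := mem_bin.1 hσ
  have hsubA : cyl σ ⊆ Lex (cA π z) := by
    apply cyl_sub_Lex hA1
    rw [hval, hlen, add_div]
    exact hk
  have hdisB : ∀ Y ∈ cyl σ, Y ∉ Lex (cB π z) := by
    intro Y hY hYB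
    have h1 := hYB σ.length
    have hY' : pre (toN Y) σ.length = σ := hY
    rw [hY', hval, hlen] at h1
    exact absurd h1 (lt_irrefl _)
  obtain ⟨q, hq, hXq⟩ := hX
  obtain ⟨f, hf, hf'⟩ := index_one hπ hB1 σ (R := fun p => ¬ q p) (Sig.not hq)
  obtain ⟨b, hb⟩ := index_lex hπ hA1
  refine ⟨fun x => Nat.pair (f x) b, by fun_prop, fun x => ?_⟩
  have hS : S π (Nat.pair (f x) b) =
      (Lex (cA π z) \ Lex (cB π z)) \ Fx σ (fun n => ¬ q (x, n)) := by
    unfold S
    simp only [Nat.unpair_pair]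
    rw [hb, hf']
    ext Y
    simp only [Set.mem_sdiff, Set.mem_union, not_or, not_and, not_not]
    constructor
    · rintro ⟨h1, h2, h3⟩
      refine ⟨⟨h1, fun h4 => ?_⟩, h2⟩
      exact hdisB Y (h3 h4) h4
    · rintro ⟨⟨h1, h2⟩, h3⟩
      exact ⟨h1, h3, fun h4 => absurd h4 h2⟩
  have hFsub : Fx σ (fun n => ¬ q (x, n)) ⊆ Lex (cA π z) \ Lex (cB π z) := fun Y hY =>
    ⟨hsubA hY.1, hdisB Y hY.1⟩
  rw [hS, measureReal_sdiff hFsub (measurableSet_Fx hbin _), hdiff]
  constructor
  · intro hx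
    obtain ⟨n, hn⟩ := (hXq x).1 hx
    have := coin_Fx_pos hbin (R := fun n => ¬ q (x, n)) hn
    linarith
  · intro hx
    have h1 : ∀ n, ¬ ¬ q (x, n) := fun n hn => hx ((hXq x).2 ⟨n, hn⟩)
    rw [coin_Fx_zero hbin h1, sub_zero]

/-- Raising an attained measure. -/
theorem inc_family {π : ℕ → List ℕ → Bool} (hπ : EffEnum π) (z : ℕ)
    (hlt1 : coin.real (S π z) < 1) {X : ℕ → Prop} (hX : Sig 2 X) :
    ∃ g : ℕ → ℕ, Computable g ∧ ∀ x, (X x → coin.real (S π z) < coin.real (S π (g x))) ∧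
      (¬ X x → coin.real (S π (g x)) = coin.real (S π z)) := by
  obtain ⟨hA1, hA2⟩ := cA_bound hπ z
  obtain ⟨hB1, hB2⟩ := cB_bound hπ z
  have hdiff := coin_Lex_diff hπ z
  have hcyl : ∃ σ : List ℕ, (∀ a ∈ σ, a < 2) ∧
      ∀ Y ∈ cyl σ, ¬ (Y ∈ Lex (cA π z) ∧ Y ∉ Lex (cB π z)) := by
    by_cases hα : coin.real (Lex (cA π z)) < 1
    · have h1 := (tendsto_Lex hA1).eventually (gt_mem_nhds hα)
      obtain ⟨k, hk⟩ := h1.exists
      rw [div_lt_one (by positivity)] at hk
      have hk' : cA π z k < 2 ^ k := by exact_mod_cast hk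
      obtain ⟨σ, hσ, hval⟩ := exists_val (show 2 ^ k - 1 < 2 ^ k by omega)
      obtain ⟨hlen, hbin⟩ := mem_bin.1 hσ
      refine ⟨σ, hbin, fun Y hY h2 => ?_⟩
      have hY' : pre (toN Y) σ.length = σ := hY
      have h3 := h2.1 σ.length
      rw [hY', hval, hlen] at h3
      omega
    · have hα1 : coin.real (Lex (cA π z)) = 1 := le_antisymm measureReal_le_one (not_lt.1 hα)
      have hβ : 0 < coin.real (Lex (cB π z)) := by
        rw [measureReal_sdiff (Lex_sub z) (measurableSet_Lex _)] at hdiff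
        linarith
      obtain ⟨k, hk⟩ := exists_pow_lt_of_lt_one hβ (show (1 / 2 : ℝ) < 1 by norm_num)
      obtain ⟨σ, hσ, hval⟩ := exists_val (show 0 < 2 ^ k by positivity)
      obtain ⟨hlen, hbin⟩ := mem_bin.1 hσ
      refine ⟨σ, hbin, fun Y hY h2 => h2.2 (cyl_sub_Lex hB1 ?_ hY)⟩
      rw [hval, hlen]
      rw [one_div_pow] at hk
      simpa using hk.le
  obtain ⟨σ, hbin, hdis⟩ := hcyl
  obtain ⟨q, hq, hXq⟩ := hX
  obtain ⟨f, hf, hf'⟩ := index_one hπ hA1 σ (R := fun p => ¬ q p) (Sig.not hq)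
  obtain ⟨a, ha⟩ := index_two hπ hB1 σ
  refine ⟨fun x => Nat.pair a (f x), by fun_prop, fun x => ?_⟩
  have hS : S π (Nat.pair a (f x)) =
      Fx σ (fun n => ¬ q (x, n)) ∪ (Lex (cA π z) \ Lex (cB π z)) := by
    unfold S
    simp only [Nat.unpair_pair]
    rw [ha, hf']
    ext Y
    simp only [Set.mem_sdiff, Set.mem_union, not_and, not_not]
    constructor
    · rintro ⟨h1 | h1, h2⟩
      · exact Or.inl h1
      · right
        refine ⟨h1.1, fun h3 => h1.2 (h2 h3)⟩
    · rintro (h1 | ⟨h1, h2⟩)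
      · exact ⟨Or.inl h1, fun _ => h1.1⟩
      · exact ⟨Or.inr ⟨h1, fun h3 => hdis Y h3 ⟨h1, h2⟩⟩, fun h3 => absurd h3 h2⟩
  have hdisj : Disjoint (Fx σ (fun n => ¬ q (x, n))) (Lex (cA π z) \ Lex (cB π z)) :=
    Set.disjoint_left.2 fun Y h1 h2 => hdis Y h1.1 h2
  rw [hS, measureReal_union hdisj ((measurableSet_Lex _).diff (measurableSet_Lex _)), hdiff]
  constructor
  · intro hx
    obtain ⟨n, hn⟩ := (hXq x).1 hx
    have := coin_Fx_pos hbin (R := fun n => ¬ q (x, n)) hn
    linarith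
  · intro hx
    have h1 : ∀ n, ¬ ¬ q (x, n) := fun n hn => hx ((hXq x).2 ⟨n, hn⟩)
    rw [coin_Fx_zero hbin h1, zero_add]

/-- Attained thresholds. -/
theorem meas_attained {π : ℕ → List ℕ → Bool} (hπ : EffEnum π) {r : ℝ}
    (hr : ∃ z, coin.real (S π z) = r) :
    (r < 1 → Complete (Sig 2) (D π fun s => r < coin.real s) ∧
      Complete (Pi 2) (D π fun s => coin.real s ≤ r)) ∧
    (0 < r → Complete (Sig 2) (D π fun s => coin.real s < r) ∧
      Complete (Pi 2) (D π fun s => r ≤ coin.real s)) ∧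
    Complete (Pi 2) (D π fun s => coin.real s = r) := by
  obtain ⟨z, hz⟩ := hr
  have hR : Sig 2 (RightCut r) := by
    refine Sig.of_iff ((lt_sig hπ).comp (f := fun p : ℕ × ℕ => (z, p)) (by fun_prop)) fun p => ?_
    dsimp only
    rw [hz]
    rfl
  have hL : Sig 2 (LeftCut r) := by
    refine Sig.of_iff ((gt_sig hπ).comp (f := fun p : ℕ × ℕ => (z, p)) (by fun_prop)) fun p => ?_
    dsimp only
    rw [hz]
    rfl
  have hr0 : 0 ≤ r := by rw [← hz]; exact measureReal_nonneg
  have hgt := D_gt_sig hπ hr0 (le_refl 2) hR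
  have hlt := D_lt_sig (π := π) hπ (le_refl 2) hL
  have hgtc : r < 1 → Complete (Sig 2) (D π fun s => r < coin.real s) := by
    intro h1
    refine ⟨hgt, fun X hX => ?_⟩
    obtain ⟨g, hg, hg'⟩ := inc_family hπ z (by rw [hz]; exact h1) hX
    refine ⟨g, hg, fun x => ?_⟩
    show X x ↔ r < coin.real (S π (g x))
    rw [← hz]
    refine ⟨(hg' x).1, fun h => ?_⟩
    by_contra hx
    rw [(hg' x).2 hx] at h
    exact absurd h (lt_irrefl _)
  have hltc : 0 < r → Complete (Sig 2) (D π fun s => coin.real s < r) := by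
    intro h1
    refine ⟨hlt, fun X hX => ?_⟩
    obtain ⟨g, hg, hg'⟩ := dec_family hπ z (by rw [hz]; exact h1) hX
    refine ⟨g, hg, fun x => ?_⟩
    show X x ↔ coin.real (S π (g x)) < r
    rw [← hz]
    refine ⟨(hg' x).1, fun h => ?_⟩
    by_contra hx
    rw [(hg' x).2 hx] at h
    exact absurd h (lt_irrefl _)
  refine ⟨fun h1 => ⟨hgtc h1, ?_⟩, fun h1 => ⟨hltc h1, ?_⟩, ?_, fun X hX => ?_⟩
  · refine complete_congr (complete_compl (hgtc h1)) fun n => ?_
    exact not_lt
  · refine complete_congr (complete_compl (hltc h1)) fun n => ?_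
    exact not_lt
  · refine Pi.of_iff (Pi.and (Sig.not hgt) (Sig.not hlt)) fun n => ?_
    show (¬ r < coin.real (S π n) ∧ ¬ coin.real (S π n) < r) ↔ coin.real (S π n) = r
    constructor
    · rintro ⟨h1, h2⟩
      exact le_antisymm (not_lt.1 h1) (not_lt.1 h2)
    · intro h1
      rw [h1]
      exact ⟨lt_irrefl _, lt_irrefl _⟩
  · by_cases h1 : 0 < r
    · obtain ⟨g, hg, hg'⟩ := dec_family hπ z (by rw [hz]; exact h1) (X := fun x => ¬ X x) hX
      refine ⟨g, hg, fun x => ?_⟩
      show X x ↔ coin.real (S π (g x)) = r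
      rw [← hz]
      refine ⟨fun h => (hg' x).2 (not_not.2 h), fun h => ?_⟩
      by_contra hx
      have := (hg' x).1 hx
      rw [h] at this
      exact absurd this (lt_irrefl _)
    · obtain ⟨g, hg, hg'⟩ := inc_family hπ z (by rw [hz]; linarith) (X := fun x => ¬ X x) hX
      refine ⟨g, hg, fun x => ?_⟩
      show X x ↔ coin.real (S π (g x)) = r
      rw [← hz]
      refine ⟨fun h => (hg' x).2 (not_not.2 h), fun h => ?_⟩
      by_contra hx
      have := (hg' x).1 hx
      rw [h] at this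
      exact absurd this (lt_irrefl _)

/-- Thresholds which are not attained. -/
theorem meas_not_attained {π : ℕ → List ℕ → Bool} {r : ℝ}
    (hr : ¬ ∃ z, coin.real (S π z) = r) (n : ℕ) :
    ¬ D π (fun s => coin.real s = r) n ∧
    (D π (fun s => r ≤ coin.real s) n ↔ D π (fun s => r < coin.real s) n) ∧
    (D π (fun s => coin.real s ≤ r) n ↔ D π (fun s => coin.real s < r) n) := by
  have hne : coin.real (S π n) ≠ r := fun h => hr ⟨n, h⟩
  refine ⟨hne, ?_, ?_⟩
  · show r ≤ coin.real (S π n) ↔ r < coin.real (S π n)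
    exact ⟨fun h => lt_of_le_of_ne h hne.symm, le_of_lt⟩
  · show coin.real (S π n) ≤ r ↔ coin.real (S π n) < r
    exact ⟨fun h => lt_of_le_of_ne h hne, le_of_lt⟩

/-- Classes of dyadic measure. -/
theorem dyadic_index {π : ℕ → List ℕ → Bool} (hπ : EffEnum π) :
    ∃ h : ℕ × ℕ → ℕ, Computable h ∧
      ∀ p, coin.real (S π (h p)) = (min p.1 (2 ^ p.2) : ℕ) / 2 ^ p.2 := by
  have hval : Computable val := by
    unfold val
    exact list_foldl (f := fun σ : List ℕ => σ) (g := fun _ => 0)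
      (h := fun _ (p : ℕ × ℕ) => 2 * p.1 + p.2) (by fun_prop) (Computable.const _)
      (by unfold Computable₂; fun_prop)
  obtain ⟨f, hf, hf'⟩ := smn_comp hπ (T := fun p : ℕ × List ℕ => p.1.unpair.2 ≤ p.2.length →
    val (p.2.take p.1.unpair.2) < p.1.unpair.1)
    (Pi.of_cp (by
      show Sig 0 _
      exact Sig.imp (Pi.of_cp (RE.cp_le (by fun_prop) (by fun_prop)))
        (RE.cp_lt (by fun_prop) (by fun_prop))))
  obtain ⟨g, hg, hg'⟩ := smn_comp hπ (T := fun _ : ℕ × List ℕ => (0 : ℕ) = 1)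
    (Pi.of_cp (RE.cp_eq (by fun_prop) (by fun_prop)))
  have hg0 : Q π (g 0) = ∅ := by
    rw [hg']
    ext b
    simp
  refine ⟨fun p => Nat.pair (g 0) (f (Nat.pair p.1 p.2)), by fun_prop, fun p => ?_⟩
  have hS : S π (Nat.pair (g 0) (f (Nat.pair p.1 p.2))) =
      clo p.2 fun σ => decide (val σ < p.1) := by
    unfold S
    simp only [Nat.unpair_pair]
    rw [hg0, Set.sdiff_empty, hf']
    ext Y
    simp only [Set.mem_ofPred_eq, pre_length, Nat.unpair_pair, clo, decide_eq_true_eq]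
    constructor
    · intro h
      have := h p.2 (le_refl _)
      rwa [pre_take _ _ _ (le_refl _)] at this
    · intro h n hn
      rw [pre_take _ _ _ hn]
      exact h
  rw [hS, coin_clo, cnt_val_lt]

theorem meas_gt_iff {π : ℕ → List ℕ → Bool} (hπ : EffEnum π) {r : ℝ} (h0 : 0 ≤ r) (h1 : r < 1)
    {n : ℕ} (hn : 2 ≤ n) : Sig n (D π fun s => r < coin.real s) ↔ Sig n (RightCut r) := by
  refine ⟨fun h => ?_, D_gt_sig hπ h0 hn⟩
  obtain ⟨g, hg, hg'⟩ := dyadic_index hπ
  refine (h.comp hg).of_iff fun p => ?_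
  show r < coin.real (S π (g p)) ↔ r < (p.1 : ℝ) / 2 ^ p.2
  rw [hg']
  rcases le_total p.1 (2 ^ p.2) with h2 | h2
  · rw [min_eq_left h2]
  · rw [min_eq_right h2]
    have h3 : (1 : ℝ) ≤ (p.1 : ℝ) / 2 ^ p.2 := by
      rw [one_le_div (by positivity)]
      exact_mod_cast h2
    push_cast
    rw [div_self (by positivity)]
    exact ⟨fun _ => lt_of_lt_of_le h1 h3, fun _ => h1⟩

theorem meas_lt_iff' {π : ℕ → List ℕ → Bool} (hπ : EffEnum π) {r : ℝ} (h1 : r ≤ 1)
    {n : ℕ} (hn : 2 ≤ n) : Sig n (D π fun s => coin.real s < r) ↔ Sig n (LeftCut r) := by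
  refine ⟨fun h => ?_, D_lt_sig hπ hn⟩
  obtain ⟨g, hg, hg'⟩ := dyadic_index hπ
  refine (h.comp hg).of_iff fun p => ?_
  show coin.real (S π (g p)) < r ↔ (p.1 : ℝ) / 2 ^ p.2 < r
  rw [hg']
  rcases le_total p.1 (2 ^ p.2) with h2 | h2
  · rw [min_eq_left h2]
  · rw [min_eq_right h2]
    have h3 : (1 : ℝ) ≤ (p.1 : ℝ) / 2 ^ p.2 := by
      rw [one_le_div (by positivity)]
      exact_mod_cast h2
    push_cast
    rw [div_self (by positivity)]
    constructor <;> intro h <;> linarith

/-- Reals whose digit set is a difference of two `Π⁰₁` sets are attained. -/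
theorem digits_attained {π : ℕ → List ℕ → Bool} (hπ : EffEnum π) {A B : ℕ → Prop}
    (hA : Pi 1 A) (hB : Pi 1 B) :
    ∃ z, coin.real (S π z) = ∑' i : ℕ, Set.indicator {i | A i ∧ ¬ B i} (fun i => (1 / 2 : ℝ) ^ (i + 1)) i := by
  have hbound : IsBound fun k => 2 ^ k :=
    ⟨by fun_prop, fun k => le_refl _, fun k => by rw [pow_succ]; omega⟩
  have hidx : ∀ {A : ℕ → Prop}, Pi 1 A → ∃ a, Q π a = Fx [] A := by
    intro A hA
    obtain ⟨f, -, hf'⟩ := index_one hπ hbound [] (R := fun p => A p.2)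
      (hA.comp (f := fun p : ℕ × ℕ => p.2) (by fun_prop))
    refine ⟨f 0, ?_⟩
    rw [hf']
    have : cyl [] = Set.univ := by
      ext Y
      simp [cyl, pre]
    rw [this]
    simp
  obtain ⟨b, hb⟩ := hidx hA
  obtain ⟨a, ha⟩ := hidx hB
  refine ⟨Nat.pair a b, ?_⟩
  have hone : ∀ n, ∀ c ∈ List.replicate n 0 ++ [1], c < 2 := by
    intro n c hc
    rw [List.mem_append] at hc
    rcases hc with hc | hc
    · rw [List.eq_of_mem_replicate hc]; omega
    · rw [List.mem_singleton] at hc; omega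
  have hcyl : ∀ n Y, Y ∈ cyl (List.replicate n 0 ++ [1]) ↔
      (Y n = true ∧ ∀ m < n, Y m = false) := by
    intro n Y
    have hl : (List.replicate n 0 ++ [1]).length = n + 1 := by simp
    unfold cyl
    simp only [Set.mem_ofPred_eq]
    rw [hl, pre_succ]
    constructor
    · intro h
      have h1 := List.append_inj' h rfl
      refine ⟨?_, fun m hm => ?_⟩
      · have h2 : toN Y n = 1 := by simpa using h1.2
        unfold toN at h2
        cases h3 : Y n <;> simp [h3] at h2 ⊢
      · have h2 := congrArg (fun l => l[m]?) h1.1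
        simp only [pre, List.getElem?_map, List.getElem?_range hm, Option.map_some,
          List.getElem?_replicate, if_pos hm, Option.some.injEq] at h2
        unfold toN at h2
        cases h3 : Y m <;> simp [h3] at h2 ⊢
    · rintro ⟨h1, h2⟩
      congr 1
      · apply List.ext_getElem
        · simp [pre]
        · intro m hm1 hm2
          rw [pre_getElem, List.getElem_replicate]
          rw [pre_length] at hm1
          unfold toN
          rw [h2 m hm1]
          rfl
      · unfold toN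
        rw [h1]
        rfl
  have hS : S π (Nat.pair a b) = ⋃ n : {i // A i ∧ ¬ B i}, cyl (List.replicate n.1 0 ++ [1]) := by
    unfold S
    simp only [Nat.unpair_pair]
    rw [ha, hb]
    ext Y
    simp only [Set.mem_sdiff, Set.mem_iUnion, hcyl]
    constructor
    · rintro ⟨h1, h2⟩
      have h3 : ¬ ∀ n, Y n = true → (∀ m < n, Y m = false) → B n := by
        intro h3
        apply h2
        refine ⟨by simp [cyl, pre], fun n _ hn hall => ?_⟩
        rw [List.length_nil, Nat.sub_zero]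
        exact h3 n hn fun m hm => hall m hm (Nat.zero_le _)
      push Not at h3
      obtain ⟨n, hn1, hn2, hn3⟩ := h3
      have h4 := h1.2 n (Nat.zero_le _) hn1 fun m hm _ => hn2 m hm
      rw [List.length_nil, Nat.sub_zero] at h4
      exact ⟨⟨n, h4, hn3⟩, hn1, hn2⟩
    · rintro ⟨⟨n, hn1, hn2⟩, hn3, hn4⟩
      refine ⟨⟨by simp [cyl, pre], fun k _ hk hall => ?_⟩, fun h5 => hn2 ?_⟩
      · have : k = n := by
          rcases lt_trichotomy k n with h | h | h
          · have := hn4 k h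
            rw [hk] at this
            exact absurd this (by simp)
          · exact h
          · have := hall n h (Nat.zero_le _)
            dsimp only at hn3
            rw [hn3] at this
            exact absurd this (by simp)
        rw [this, List.length_nil, Nat.sub_zero]
        exact hn1
      · have := h5.2 n (Nat.zero_le _) hn3 fun m hm _ => hn4 m hm
        rwa [List.length_nil, Nat.sub_zero] at this
  have hdisj : Pairwise (Function.onFun Disjoint fun n : {i // A i ∧ ¬ B i} =>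
      cyl (List.replicate n.1 0 ++ [1])) := by
    intro n m hnm
    refine Set.disjoint_left.2 fun Y h1 h2 => hnm ?_
    rw [hcyl] at h1 h2
    apply Subtype.ext
    rcases lt_trichotomy n.1 m.1 with h | h | h
    · have := h2.2 _ h
      rw [h1.1] at this
      exact absurd this (by simp)
    · exact h
    · have := h1.2 _ h
      rw [h2.1] at this
      exact absurd this (by simp)
  have h1 : coin (S π (Nat.pair a b)) = ∑' n : {i // A i ∧ ¬ B i},
      coin (cyl (List.replicate n.1 0 ++ [1])) := by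
    rw [hS]
    exact measure_iUnion hdisj fun n => measurableSet_cyl (hone n.1)
  have h2 : coin.real (S π (Nat.pair a b)) = ∑' n : {i // A i ∧ ¬ B i},
      (1 / 2 : ℝ) ^ (n.1 + 1) := by
    unfold Measure.real
    rw [h1, ENNReal.tsum_toReal_eq fun n => measure_ne_top _ _]
    refine tsum_congr fun n => ?_
    have h3 := coin_cyl (hone n.1)
    unfold Measure.real at h3
    rw [h3]
    simp
  rw [h2]
  exact tsum_subtype {i | A i ∧ ¬ B i} fun i => (1 / 2 : ℝ) ^ (i + 1)

end Pool.Agent.Q206.DC
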