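import Pool.Agent.Q206.DC.Meas2

/-!
Hardness of the measure properties.
-/

namespace Pool.Agent.Q206.DC

open Encodable Denumerable Pool.Agent.Helper446 Pool.Agent.Helper446.RE
open Pool.Agent.Helper446.CB Pool.Agent.Q206.ISC
open MeasureTheory Filter Topology

/-- a sequence of bounds for initial segments of the Cantor space -/
structure IsBound (c : ℕ → ℕ) : Prop where
  comp : Computable c
  le : ∀ k, c k ≤ 2 ^ k
  step : ∀ k, c (k + 1) ≤ 2 * c k

/-- the closed initial segment given by the bounds -/
def Lex (c : ℕ → ℕ) : Set (ℕ → Bool) := {Y | ∀ k, val (pre (toN Y) k) < c k}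

theorem IsBound.down {c : ℕ → ℕ} (hc : IsBound c) {X : ℕ → ℕ} {m n : ℕ} (hmn : m ≤ n)
    (h : val (pre X n) < c n) : val (pre X m) < c m := by
  induction n, hmn using Nat.le_induction with
  | base => exact h
  | succ n _ ih =>
    apply ih
    rw [val_pre_succ] at h
    have := hc.step n
    omega

theorem mem_Lex_of {c : ℕ → ℕ} (hc : IsBound c) {Y : ℕ → Bool} (s : ℕ) :
    Y ∈ Lex c ↔ ∀ n, s ≤ n → val (pre (toN Y) n) < c n := by
  constructor
  · intro h n _
    exact h n
  · intro h k
    exact hc.down (le_max_left k s) (h _ (le_max_right k s))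

/-- the clopen approximations -/
def LexK (c : ℕ → ℕ) (k : ℕ) : Set (ℕ → Bool) := clo k fun σ => decide (val σ < c k)

theorem coin_LexK {c : ℕ → ℕ} (hc : IsBound c) (k : ℕ) : coin.real (LexK c k) = c k / 2 ^ k := by
  unfold LexK
  rw [coin_clo, cnt_val_lt, min_eq_left (hc.le k)]

theorem Lex_eq (c : ℕ → ℕ) : Lex c = ⋂ k, LexK c k := by
  ext Y
  simp [Lex, LexK, clo]

theorem measurableSet_Lex (c : ℕ → ℕ) : MeasurableSet (Lex c) := by
  rw [Lex_eq]
  exact MeasurableSet.iInter fun k => measurableSet_clo k _

theorem tendsto_Lex {c : ℕ → ℕ} (hc : IsBound c) :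
    Tendsto (fun k => (c k : ℝ) / 2 ^ k) atTop (𝓝 (coin.real (Lex c))) := by
  have hanti : Antitone (LexK c) := by
    intro m n hmn Y hY
    have h1 : decide (val (pre (toN Y) n) < c n) = true := hY
    show decide (val (pre (toN Y) m) < c m) = true
    rw [decide_eq_true_eq] at *
    exact hc.down hmn h1
  have := tendsto_iInter (s := LexK c) (fun k => measurableSet_clo k _) hanti
  rw [← Lex_eq] at this
  refine this.congr fun k => ?_
  exact coin_LexK hc k

/-- the bounds of the tree of a property inherited by prefixes -/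
theorem isBound_cnt {p : List ℕ → Bool} (hp : Computable p)
    (hpre : ∀ τ m, p τ = true → p (τ.take m) = true) :
    IsBound (fun k => cnt k p) ∧ coin.real (Lex fun k => cnt k p) =
      coin.real {Y | ∀ k, p (pre (toN Y) k) = true} := by
  have hanti : Antitone fun k => clo k p := by
    intro m n hmn Y hY
    have h1 : p (pre (toN Y) n) = true := hY
    show p (pre (toN Y) m) = true
    rw [← pre_take _ _ _ hmn]
    exact hpre _ _ h1
  have hb : IsBound fun k => cnt k p := by
    refine ⟨?_, fun k => ?_, fun k => ?_⟩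
    · have h1 : Computable fun k : ℕ => bin k := bin_comp
      exact cfilter_length (p := fun _ τ => p τ) h1 (hp.comp Computable.snd)
    · have h1 := coin_clo k p
      have h2 : coin.real (clo k p) ≤ 1 := measureReal_le_one
      rw [h1, div_le_one (by positivity)] at h2
      exact_mod_cast h2
    · have h1 : coin.real (clo (k + 1) p) ≤ coin.real (clo k p) :=
        measureReal_mono (hanti (Nat.le_succ k))
      rw [coin_clo, coin_clo, div_le_div_iff₀ (by positivity) (by positivity)] at h1
      have h2 : cnt (k + 1) p * 2 ^ k ≤ cnt k p * 2 ^ (k + 1) := by exact_mod_cast h1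
      have h3 : cnt k p * 2 ^ (k + 1) = (2 * cnt k p) * 2 ^ k := by ring
      rw [h3] at h2
      exact Nat.le_of_mul_le_mul_right h2 (by positivity)
  refine ⟨hb, ?_⟩
  have h1 := tendsto_Lex hb
  have h2 := tendsto_iInter (fun k => measurableSet_clo k p) hanti
  have h3 : (⋂ k, clo k p) = {Y | ∀ k, p (pre (toN Y) k) = true} := by
    ext Y
    simp [clo]
  rw [h3] at h2
  refine tendsto_nhds_unique h1 (h2.congr fun k => ?_)
  exact coin_clo k p

/-- the small class inside a cylinder -/
def Fx (σ : List ℕ) (R : ℕ → Prop) : Set (ℕ → Bool) :=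
  {Y | Y ∈ cyl σ ∧ ∀ n, σ.length ≤ n → Y n = true → (∀ m < n, σ.length ≤ m → Y m = false) →
    R (n - σ.length)}

theorem coin_Fx_zero {σ : List ℕ} (hσ : ∀ a ∈ σ, a < 2) {R : ℕ → Prop} (hR : ∀ n, ¬ R n) :
    coin.real (Fx σ R) = 0 := by
  have hz : ∀ Y ∈ Fx σ R, ∀ n, σ.length ≤ n → Y n = false := by
    intro Y hY n
    induction n using Nat.strong_induction_on with
    | _ n ih =>
      intro hn
      by_contra hne
      exact hR _ (hY.2 n hn (by simpa using hne) fun m hm hsm => ih m hm hsm)
  have hsub : ∀ n, Fx σ R ⊆ cyl (σ ++ List.replicate n 0) := by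
    intro n Y hY
    show pre (toN Y) (σ ++ List.replicate n 0).length = σ ++ List.replicate n 0
    rw [List.length_append, List.length_replicate]
    induction n with
    | zero =>
      have := hY.1
      simpa [cyl] using this
    | succ n ih =>
      rw [← Nat.add_assoc, pre_succ, ih, List.append_assoc, List.replicate_succ']
      have : toN Y (σ.length + n) = 0 := by
        unfold toN
        rw [hz Y hY _ (by omega)]
        rfl
      rw [this]
  have hle : ∀ n, coin.real (Fx σ R) ≤ (1 / 2 : ℝ) ^ n := by
    intro n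
    have h1 : ∀ a ∈ σ ++ List.replicate n 0, a < 2 := by
      intro a ha
      rw [List.mem_append] at ha
      rcases ha with ha | ha
      · exact hσ a ha
      · rw [List.eq_of_mem_replicate ha]; omega
    have h2 := measureReal_mono (μ := coin) (hsub n)
    rw [coin_cyl h1, List.length_append, List.length_replicate] at h2
    refine h2.trans ?_
    exact pow_le_pow_of_le_one (by norm_num) (by norm_num) (by omega)
  refine le_antisymm ?_ measureReal_nonneg
  exact ge_of_tendsto' (tendsto_pow_atTop_nhds_zero_of_lt_one (by norm_num) (by norm_num)) hle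

theorem coin_Fx_pos {σ : List ℕ} (hσ : ∀ a ∈ σ, a < 2) {R : ℕ → Prop} {n : ℕ} (hR : R n) :
    0 < coin.real (Fx σ R) := by
  have h1 : ∀ a ∈ (σ ++ List.replicate n 0) ++ [1], a < 2 := by
    intro a ha
    rw [List.mem_append, List.mem_append] at ha
    rcases ha with (ha | ha) | ha
    · exact hσ a ha
    · rw [List.eq_of_mem_replicate ha]; omega
    · rw [List.mem_singleton] at ha; omega
  have hsub : cyl ((σ ++ List.replicate n 0) ++ [1]) ⊆ Fx σ R := by
    intro Y hY
    have hY' : pre (toN Y) ((σ ++ List.replicate n 0) ++ [1]).length =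
        (σ ++ List.replicate n 0) ++ [1] := hY
    have hl : ((σ ++ List.replicate n 0) ++ [1]).length = σ.length + n + 1 := by
      simp [Nat.add_assoc]
    rw [hl] at hY'
    have hY2 : pre (toN Y) (σ.length + n) = σ ++ List.replicate n 0 ∧ toN Y (σ.length + n) = 1 := by
      rw [pre_succ] at hY'
      have := List.append_inj' hY' rfl
      exact ⟨this.1, by simpa using this.2⟩
    have hY3 : pre (toN Y) σ.length = σ := by
      have := congrArg (fun l => l.take σ.length) hY2.1
      simp only [List.take_left'] at this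
      rw [pre_take _ _ _ (by omega)] at this
      exact this
    have hone : Y (σ.length + n) = true := by
      have := hY2.2
      unfold toN at this
      cases h : Y (σ.length + n) <;> simp [h] at this ⊢
    have hzero : ∀ m, σ.length ≤ m → m < σ.length + n → Y m = false := by
      intro m h1 h2
      have h3 := congrArg (fun l => l[m]?) hY2.1
      simp only [pre, List.getElem?_map, List.getElem?_range h2,
        List.getElem?_append_right h1] at h3
      rw [List.getElem?_replicate, if_pos (by omega)] at h3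
      simp only [Option.map_some, Option.some.injEq] at h3
      unfold toN at h3
      cases h : Y m <;> simp [h] at h3 ⊢
    refine ⟨hY3, fun k hk hYk hall => ?_⟩
    have hkn : k = σ.length + n := by
      rcases lt_trichotomy k (σ.length + n) with h | h | h
      · rw [hzero k hk h] at hYk
        exact absurd hYk (by simp)
      · exact h
      · have := hall _ h (by omega)
        rw [hone] at this
        exact absurd this (by simp)
    rw [hkn, Nat.add_sub_cancel_left]
    exact hR
  have h2 := measureReal_mono (μ := coin) hsub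
  rw [coin_cyl h1] at h2
  exact lt_of_lt_of_le (by positivity) h2

theorem measurableSet_Fx {σ : List ℕ} (hσ : ∀ a ∈ σ, a < 2) (R : ℕ → Prop) :
    MeasurableSet (Fx σ R) := by
  have hco : ∀ n (c : Bool), MeasurableSet {Y : ℕ → Bool | Y n = c} := by
    intro n c
    have h1 : Measurable fun Y : ℕ → Bool => Y n := measurable_pi_apply n
    exact h1 (MeasurableSet.singleton c)
  have : Fx σ R = cyl σ ∩ ⋂ n, {Y | σ.length ≤ n → Y n = true →
      (∀ m < n, σ.length ≤ m → Y m = false) → R (n - σ.length)} := by
    ext Y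
    simp [Fx]
  rw [this]
  refine (measurableSet_cyl hσ).inter (MeasurableSet.iInter fun n => ?_)
  by_cases h1 : σ.length ≤ n
  · by_cases h2 : R (n - σ.length)
    · have : {Y : ℕ → Bool | σ.length ≤ n → Y n = true →
          (∀ m < n, σ.length ≤ m → Y m = false) → R (n - σ.length)} = Set.univ :=
        Set.eq_univ_of_forall fun Y _ _ _ => h2
      rw [this]
      exact MeasurableSet.univ
    · have : {Y : ℕ → Bool | σ.length ≤ n → Y n = true →
          (∀ m < n, σ.length ≤ m → Y m = false) → R (n - σ.length)} =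
          ({Y | Y n = true} ∩ ⋂ m : {m // m < n ∧ σ.length ≤ m}, {Y | Y m.1 = false})ᶜ := by
        ext Y
        simp only [Set.mem_ofPred_eq, Set.mem_compl_iff, Set.mem_inter_iff, Set.mem_iInter,
          Subtype.forall, not_and]
        constructor
        · intro h h3 h4
          exact h2 (h h1 h3 fun m hm hm' => h4 m ⟨hm, hm'⟩)
        · intro h _ h3 h4
          exact absurd (fun m (hm : m < n ∧ σ.length ≤ m) => h4 m hm.1 hm.2) (h h3)
      rw [this]
      have h3 : MeasurableSet (⋂ m : {m // m < n ∧ σ.length ≤ m}, {Y : ℕ → Bool | Y m.1 = false}) :=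
        MeasurableSet.iInter fun m => hco m.1 false
      exact ((hco n true).inter h3).compl
  · have : {Y : ℕ → Bool | σ.length ≤ n → Y n = true →
        (∀ m < n, σ.length ≤ m → Y m = false) → R (n - σ.length)} = Set.univ :=
      Set.eq_univ_of_forall fun Y h => absurd h h1
    rw [this]
    exact MeasurableSet.univ

/-- The class `F_x` together with an initial segment outside of the cylinder. -/
theorem index_one {π : ℕ → List ℕ → Bool} (hπ : EffEnum π) {c : ℕ → ℕ} (hc : IsBound c)
    (σ : List ℕ) {R : ℕ × ℕ → Prop} (hR : Pi 1 R) :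
    ∃ f : ℕ → ℕ, Computable f ∧ ∀ x, Q π (f x) =
      Fx σ (fun n => R (x, n)) ∪ (Lex c \ cyl σ) := by
  have hcc := hc.comp
  have hval : Computable val := by
    unfold val
    exact list_foldl (f := fun σ : List ℕ => σ) (g := fun _ => 0)
      (h := fun _ (p : ℕ × ℕ) => 2 * p.1 + p.2) (by fun_prop) (Computable.const _)
      (by unfold Computable₂; fun_prop)
  let T : ℕ × List ℕ → Prop := fun p => σ.length ≤ p.2.length →
    ((p.2.take σ.length = σ → ∀ n < p.2.length, σ.length ≤ n → (p.2[n]?).getD 0 = 1 →
      (∀ m < n, σ.length ≤ m → (p.2[m]?).getD 0 = 0) → R (p.1, n - σ.length)) ∧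
    (¬ p.2.take σ.length = σ → val p.2 < c p.2.length))
  have hT : Pi 1 T := by
    refine Pi.imp (Sig.of_cp (RE.cp_le (by fun_prop) (by fun_prop))) (Pi.and (Pi.imp ?_ ?_)
      (Pi.imp ?_ ?_))
    · exact Sig.of_cp (RE.cp_eq (by fun_prop) (by fun_prop))
    · refine Pi.all_lt (p := fun (p : ℕ × List ℕ) (n : ℕ) => σ.length ≤ n →
        (p.2[n]?).getD 0 = 1 → (∀ m < n, σ.length ≤ m → (p.2[m]?).getD 0 = 0) →
          R (p.1, n - σ.length)) ?_ (by fun_prop)
      refine Pi.imp (Sig.of_cp (RE.cp_le (by fun_prop) (by fun_prop))) (Pi.imp ?_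
        (Pi.imp ?_ ?_))
      · exact Sig.of_cp (RE.cp_eq (getD_comp (by fun_prop) (by fun_prop)) (by fun_prop))
      · refine Sig.all_lt (p := fun (q : (ℕ × List ℕ) × ℕ) (m : ℕ) => σ.length ≤ m →
          (q.1.2[m]?).getD 0 = 0) ?_ (by fun_prop)
        exact Sig.imp (Pi.of_cp (RE.cp_le (by fun_prop) (by fun_prop)))
          (Sig.of_cp (RE.cp_eq (getD_comp (by fun_prop) (by fun_prop)) (by fun_prop)))
      · exact hR.comp (f := fun q : (ℕ × List ℕ) × ℕ => (q.1.1, q.2 - σ.length)) (by fun_prop)
    · exact Sig.of_cp (RE.cp_eq (by fun_prop) (by fun_prop)).not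
    · exact Pi.of_cp (RE.cp_lt (by fun_prop) (by fun_prop))
  obtain ⟨f, hf, hf'⟩ := smn_comp hπ hT
  refine ⟨f, hf, fun x => ?_⟩
  rw [hf']
  have hgt : ∀ (Y : ℕ → Bool) n k, n < k → ((pre (toN Y) k)[n]?).getD 0 = toN Y n := by
    intro Y n k hnk
    simp [pre, hnk]
  have ht1 : ∀ (Y : ℕ → Bool) i, toN Y i = 1 ↔ Y i = true := by
    intro Y i
    unfold toN
    cases Y i <;> simp
  have ht0 : ∀ (Y : ℕ → Bool) i, toN Y i = 0 ↔ Y i = false := by
    intro Y i
    unfold toN
    cases Y i <;> simp
  ext Y
  simp only [Set.mem_ofPred_eq, Set.mem_union, Set.mem_sdiff]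
  have hcyl : Y ∈ cyl σ ↔ pre (toN Y) σ.length = σ := Iff.rfl
  constructor
  · intro h
    by_cases hY : Y ∈ cyl σ
    · left
      refine ⟨hY, fun n hn hYn hall => ?_⟩
      have h1 := (h (n + 1) (by rw [pre_length]; omega)).1 (by
        dsimp only
        rw [pre_take _ _ _ (by omega)]; exact hY) n (by dsimp only; rw [pre_length]; omega) hn
        (by dsimp only; rw [hgt Y n (n + 1) (by omega), ht1]; exact hYn) (fun m hm hsm => by
          dsimp only
          rw [hgt Y m (n + 1) (by omega), ht0]
          exact hall m hm hsm)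
      exact h1
    · right
      refine ⟨(mem_Lex_of hc σ.length).2 fun n hn => ?_, hY⟩
      have h1 := (h n (by dsimp only; rw [pre_length]; omega)).2 (by
        dsimp only
        rw [pre_take _ _ _ hn]; exact hY)
      dsimp only at h1
      rwa [pre_length] at h1
  · rintro (⟨hY, hall⟩ | ⟨hY1, hY2⟩) n hn
    · dsimp only at hn ⊢
      rw [pre_length] at hn
      refine ⟨fun _ k hk hsk hYk hz => ?_, fun h1 => ?_⟩
      · rw [pre_length] at hk
        rw [hgt Y k n hk, ht1] at hYk
        refine hall k hsk hYk fun m hm hsm => ?_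
        have := hz m hm hsm
        rwa [hgt Y m n (by omega), ht0] at this
      · rw [pre_take _ _ _ hn] at h1
        exact absurd hY h1
    · dsimp only at hn ⊢
      rw [pre_length] at hn
      refine ⟨fun h1 => ?_, fun _ => ?_⟩
      · rw [pre_take _ _ _ hn] at h1
        exact absurd h1 hY2
      · rw [pre_length]
        exact hY1 n

/-- An initial segment. -/
theorem index_lex {π : ℕ → List ℕ → Bool} (hπ : EffEnum π) {c : ℕ → ℕ} (hc : IsBound c) :
    ∃ a : ℕ, Q π a = Lex c := by
  have hcc := hc.comp
  have hval : Computable val := by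
    unfold val
    exact list_foldl (f := fun σ : List ℕ => σ) (g := fun _ => 0)
      (h := fun _ (p : ℕ × ℕ) => 2 * p.1 + p.2) (by fun_prop) (Computable.const _)
      (by unfold Computable₂; fun_prop)
  obtain ⟨f, hf, hf'⟩ := smn_comp hπ (T := fun p : ℕ × List ℕ => val p.2 < c p.2.length)
    (Pi.of_cp (RE.cp_lt (by fun_prop) (by fun_prop)))
  refine ⟨f 0, ?_⟩
  rw [hf']
  ext Y
  simp [Lex, pre_length]

/-- An initial segment without a cylinder. -/
theorem index_two {π : ℕ → List ℕ → Bool} (hπ : EffEnum π) {c : ℕ → ℕ} (hc : IsBound c)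
    (σ : List ℕ) : ∃ a : ℕ, Q π a = Lex c \ cyl σ := by
  have hcc := hc.comp
  have hval : Computable val := by
    unfold val
    exact list_foldl (f := fun σ : List ℕ => σ) (g := fun _ => 0)
      (h := fun _ (p : ℕ × ℕ) => 2 * p.1 + p.2) (by fun_prop) (Computable.const _)
      (by unfold Computable₂; fun_prop)
  obtain ⟨f, hf, hf'⟩ := smn_comp hπ (T := fun p : ℕ × List ℕ => σ.length ≤ p.2.length →
    (¬ p.2.take σ.length = σ ∧ val p.2 < c p.2.length))
    (Pi.of_cp (by
      show Sig 0 _
      exact Sig.imp (Pi.of_cp (RE.cp_le (by fun_prop) (by fun_prop)))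
        (Sig.and (RE.cp_eq (by fun_prop) (by fun_prop)).not
          (RE.cp_lt (by fun_prop) (by fun_prop)))))
  refine ⟨f 0, ?_⟩
  rw [hf']
  ext Y
  simp only [Set.mem_ofPred_eq, Set.mem_sdiff, pre_length]
  constructor
  · intro h
    refine ⟨(mem_Lex_of hc σ.length).2 fun n hn => (h n hn).2, fun hY => ?_⟩
    have := (h σ.length (le_refl _)).1
    rw [pre_take _ _ _ (le_refl _)] at this
    exact this hY
  · rintro ⟨h1, h2⟩ n hn
    refine ⟨?_, h1 n⟩
    rw [pre_take _ _ _ hn]
    exact h2

end Pool.Agent.Q206.DC
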