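import Pool.Agent.Q206.DC.Card

/-!
Uncountable differences: upper bound.
-/

namespace Pool.Agent.Q206.DC

open Encodable Denumerable Pool.Agent.Helper446 Pool.Agent.Helper446.RE
open Pool.Agent.Helper446.CB Pool.Agent.Q206.ISC
open Cardinal

/-- the string with a given code -/
def ds (n : ℕ) : List ℕ := ofNat (List ℕ) n

/-- the string coded at place `j` of `l` -/
def gs (l : List ℕ) (j : ℕ) : List ℕ := ds ((l[j]?).getD 0)

theorem ds_comp : Computable ds := Computable.ofNat (List ℕ)

@[fun_prop] theorem gs_comp {α : Type} [Primcodable α] {f : α → List ℕ} {g : α → ℕ}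
    (hf : Computable f) (hg : Computable g) : Computable fun a => gs (f a) (g a) := by
  have h1 : Computable fun a => (f a)[g a]? := by fun_prop
  have h2 : Computable fun a => ((f a)[g a]?).getD 0 :=
    (Primrec.option_getD.comp Primrec.id (Primrec.const 0)).to_comp.comp h1
  exact ds_comp.comp h2

/-- the code of a child -/
def ch (c : Bool) (i : ℕ) : ℕ := bif c then 2 * i + 1 else 2 * i + 2

@[fun_prop] theorem ch_comp {α : Type} [Primcodable α] (c : Bool) {g : α → ℕ}
    (hg : Computable g) : Computable fun a => ch c (g a) := by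
  unfold ch
  fun_prop

/-- recursion along the binary tree -/
def heap {α : Type} (r : α) (s t : α → α) : ℕ → α
  | 0 => r
  | n + 1 => if n % 2 = 0 then s (heap r s t (n / 2)) else t (heap r s t (n / 2))

theorem heap_zero {α : Type} (r : α) (s t : α → α) : heap r s t 0 = r := by
  unfold heap; rfl

theorem heap_true {α : Type} (r : α) (s t : α → α) (i : ℕ) :
    heap r s t (ch true i) = s (heap r s t i) := by
  have : ch true i = 2 * i + 1 := rfl
  rw [this, heap, if_pos (by omega), show 2 * i / 2 = i by omega]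

theorem heap_false {α : Type} (r : α) (s t : α → α) (i : ℕ) :
    heap r s t (ch false i) = t (heap r s t i) := by
  have : ch false i = (2 * i + 1) + 1 := rfl
  rw [this, heap, if_neg (by omega), show (2 * i + 1) / 2 = i by omega]

/-- relation of a node to its child -/
def Kid (s t : List ℕ) : Prop := t.take s.length = s ∧ s.length < t.length

/-- relation of the two children -/
def Sib (s t : List ℕ) : Prop := s.length = t.length ∧ s ≠ t

/-- the local condition -/
def Cond (π : ℕ → List ℕ → Bool) (z : ℕ) (l : List ℕ) : Prop :=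
  ∀ i < l.length,
    ((good π z.unpair.2 (gs l i) = true ∧ ∀ a ∈ gs l i, a < 2) ∧
      (i = 0 → good π z.unpair.1 (gs l i) = false)) ∧
    (((ch true i < l.length → Kid (gs l i) (gs l (ch true i))) ∧
      (ch false i < l.length → Kid (gs l i) (gs l (ch false i)))) ∧
      (ch true i < l.length → ch false i < l.length →
        Sib (gs l (ch true i)) (gs l (ch false i))))

theorem kid_cp {α : Type} [Primcodable α] {f g : α → List ℕ} (hf : Computable f)
    (hg : Computable g) : Sig 0 fun a => Kid (f a) (g a) :=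
  Sig.and (RE.cp_eq (by fun_prop) (by fun_prop)) (RE.cp_lt (by fun_prop) (by fun_prop))

theorem sib_cp {α : Type} [Primcodable α] {f g : α → List ℕ} (hf : Computable f)
    (hg : Computable g) : Sig 0 fun a => Sib (f a) (g a) :=
  Sig.and (RE.cp_eq (by fun_prop) (by fun_prop)) (RE.cp_eq (by fun_prop) (by fun_prop)).not

theorem cond_cp {π : ℕ → List ℕ → Bool} (hπ : EffEnum π) :
    ComputablePred fun p : ℕ × List ℕ => Cond π p.1 p.2 := by
  show Sig 0 _
  have hgood := good_comp hπ
  refine Sig.all_lt (n := 0) (p := fun (p : ℕ × List ℕ) (i : ℕ) =>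
    ((good π p.1.unpair.2 (gs p.2 i) = true ∧ ∀ a ∈ gs p.2 i, a < 2) ∧
      (i = 0 → good π p.1.unpair.1 (gs p.2 i) = false)) ∧
    (((ch true i < p.2.length → Kid (gs p.2 i) (gs p.2 (ch true i))) ∧
      (ch false i < p.2.length → Kid (gs p.2 i) (gs p.2 (ch false i)))) ∧
      (ch true i < p.2.length → ch false i < p.2.length →
        Sib (gs p.2 (ch true i)) (gs p.2 (ch false i))))) ?_ (by fun_prop)
  refine Sig.and (Sig.and (Sig.and ?_ ?_) ?_) (Sig.and (Sig.and ?_ ?_) ?_)
  · exact RE.cp_eq (hgood.comp (g := fun q : (ℕ × List ℕ) × ℕ => (q.1.1.unpair.2, gs q.1.2 q.2))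
      (by fun_prop)) (by fun_prop)
  · exact Sig.ball (n := 0) (p := fun (q : (ℕ × List ℕ) × ℕ) (a : ℕ) => a < 2)
      (RE.cp_lt (by fun_prop) (by fun_prop)) (by fun_prop)
  · refine Sig.imp (Pi.of_cp (RE.cp_eq (by fun_prop) (by fun_prop))) ?_
    exact RE.cp_eq (hgood.comp (g := fun q : (ℕ × List ℕ) × ℕ => (q.1.1.unpair.1, gs q.1.2 q.2))
      (by fun_prop)) (by fun_prop)
  · exact Sig.imp (Pi.of_cp (RE.cp_lt (by fun_prop) (by fun_prop)))
      (kid_cp (by fun_prop) (by fun_prop))
  · exact Sig.imp (Pi.of_cp (RE.cp_lt (by fun_prop) (by fun_prop)))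
      (kid_cp (by fun_prop) (by fun_prop))
  · exact Sig.imp (Pi.of_cp (RE.cp_lt (by fun_prop) (by fun_prop)))
      (Sig.imp (Pi.of_cp (RE.cp_lt (by fun_prop) (by fun_prop)))
        (sib_cp (by fun_prop) (by fun_prop)))

/-- A perfect scheme gives continuum many members. -/
theorem cont_of_scheme {π : ℕ → List ℕ → Bool} {z : ℕ} {F : ℕ → List ℕ}
    (h1 : ∀ i, good π z.unpair.2 (F i) = true) (h2 : ∀ i, ∀ a ∈ F i, a < 2)
    (h3 : good π z.unpair.1 (F 0) = false) (h4 : ∀ c i, Kid (F i) (F (ch c i)))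
    (h5 : ∀ i, Sib (F (ch true i)) (F (ch false i))) : 𝔠 ≤ #(S π z) := by
  let nd : (ℕ → Bool) → ℕ → ℕ := fun Z n => Nat.rec 0 (fun n v => ch (Z n) v) n
  have hnd0 : ∀ Z, nd Z 0 = 0 := fun Z => rfl
  have hnds : ∀ Z n, nd Z (n + 1) = ch (Z n) (nd Z n) := fun Z n => rfl
  have hlen : ∀ Z n, n ≤ (F (nd Z n)).length := by
    intro Z n
    induction n with
    | zero => omega
    | succ n ih =>
      have := (h4 (Z n) (nd Z n)).2
      rw [hnds]
      omega
  have hmono : ∀ Z m n, m ≤ n → (F (nd Z n)).take (F (nd Z m)).length = F (nd Z m) ∧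
      (F (nd Z m)).length ≤ (F (nd Z n)).length := by
    intro Z m n hmn
    induction n, hmn using Nat.le_induction with
    | base => exact ⟨List.take_length, le_refl _⟩
    | succ n _ ih =>
      obtain ⟨hk1, hk2⟩ := h4 (Z n) (nd Z n)
      rw [hnds]
      refine ⟨?_, by omega⟩
      rw [← ih.1, ← hk1]
      simp only [List.take_take, List.length_take]
      congr 1
      omega
  have hcompat : ∀ Z m n i, i < (F (nd Z m)).length → i < (F (nd Z n)).length →
      (F (nd Z m))[i]? = (F (nd Z n))[i]? := by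
    intro Z m n i hm hn
    rcases le_total m n with h | h
    · rw [← (hmono Z m n h).1, List.getElem?_take, if_pos hm]
    · rw [← (hmono Z n m h).1, List.getElem?_take, if_pos hn]
  let G : (ℕ → Bool) → ℕ → Bool := fun Z i => ((F (nd Z (i + 1)))[i]?).getD 0 == 1
  have hG : ∀ Z i, toN (G Z) i = ((F (nd Z (i + 1)))[i]?).getD 0 := by
    intro Z i
    have hi : i < (F (nd Z (i + 1))).length := hlen Z (i + 1)
    have h6 : (F (nd Z (i + 1)))[i]? = some (F (nd Z (i + 1)))[i] := List.getElem?_eq_getElem hi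
    have h7 := h2 _ _ (List.getElem_mem hi)
    unfold toN
    simp only [G, h6, Option.getD_some]
    rcases (by omega : (F (nd Z (i + 1)))[i] = 0 ∨ (F (nd Z (i + 1)))[i] = 1) with h | h <;>
      simp [h]
  have hpre : ∀ Z n m, m ≤ (F (nd Z n)).length → pre (toN (G Z)) m = (F (nd Z n)).take m := by
    intro Z n m hm
    apply List.ext_getElem
    · rw [pre_length, List.length_take]
      omega
    · intro i hi1 hi2
      rw [pre_length] at hi1
      rw [pre_getElem, hG, List.getElem_take]
      have h8 := hcompat Z (i + 1) n i (hlen Z (i + 1)) (by omega)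
      rw [h8, List.getElem?_eq_getElem (by omega)]
      rfl
  have hmem : ∀ Z, G Z ∈ S π z := by
    intro Z
    refine ⟨mem_Q_good.2 fun m => ?_, not_mem_Q.2 ⟨(F 0).length, ?_⟩⟩
    · rw [hpre Z m m (hlen Z m)]
      exact good_take (h1 _) m
    · have := hpre Z 0 (F 0).length (by rw [hnd0])
      rw [this, hnd0, List.take_length]
      exact h3
  have hinj : Function.Injective fun Z => (⟨G Z, hmem Z⟩ : S π z) := by
    intro Z Z' hZZ
    have hG' : G Z = G Z' := congrArg Subtype.val hZZ
    by_contra hne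
    classical
    obtain hex := Function.ne_iff.1 hne
    set i := Nat.find hex with hi
    have hi1 : Z i ≠ Z' i := Nat.find_spec hex
    have hi2 : ∀ j < i, Z j = Z' j := fun j hj => by
      have := Nat.find_min hex hj
      simpa using this
    have hndeq : ∀ j ≤ i, nd Z j = nd Z' j := by
      intro j hj
      induction j with
      | zero => rfl
      | succ j ih =>
        rw [hnds, hnds, ih (by omega), hi2 j (by omega)]
    have h9 := h5 (nd Z i)
    have h10 := hpre Z (i + 1) _ (le_refl _)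
    have h11 := hpre Z' (i + 1) _ (le_refl _)
    rw [List.take_length] at h10 h11
    rw [hnds] at h10 h11
    rw [← hndeq i (le_refl i)] at h11
    rw [← hG'] at h11
    have hcases : ∀ c c' : Bool, c ≠ c' → pre (toN (G Z)) (F (ch c (nd Z i))).length =
        F (ch c (nd Z i)) → pre (toN (G Z)) (F (ch c' (nd Z i))).length =
        F (ch c' (nd Z i)) → False := by
      intro c c' hcc ha hb
      cases c <;> cases c'
      · exact hcc rfl
      · rw [h9.1] at hb
        exact h9.2 (hb.symm.trans ha)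
      · rw [h9.1] at ha
        exact h9.2 (ha.symm.trans hb)
      · exact hcc rfl
    exact hcases _ _ hi1 h10 h11
  have h12 := Cardinal.mk_le_of_injective hinj
  have h13 : #(ℕ → Bool) = 𝔠 := by simp
  rwa [h13] at h12

/-- uncountably many members of the class above `σ` -/
def Un (π : ℕ → List ℕ → Bool) (e : ℕ) (σ : List ℕ) : Prop :=
  ¬ {Z | Z ∈ Q π e ∧ pre (toN Z) σ.length = σ}.Countable

theorem Un.good {π : ℕ → List ℕ → Bool} {e : ℕ} {σ : List ℕ} (h : Un π e σ) :
    good π e σ = true ∧ ∀ a ∈ σ, a < 2 := by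
  have hne : {Z | Z ∈ Q π e ∧ pre (toN Z) σ.length = σ}.Nonempty := by
    by_contra hno
    rw [Set.not_nonempty_iff_eq_empty] at hno
    unfold Un at h
    rw [hno] at h
    exact h Set.countable_empty
  obtain ⟨Z, hZ, hσ⟩ := hne
  refine ⟨?_, ?_⟩
  · have := mem_Q_good.1 hZ σ.length
    rwa [hσ] at this
  · have := mem_bin.1 (pre_mem_bin (toN_mem Z) σ.length)
    rw [hσ] at this
    exact this.2

theorem Un.split {π : ℕ → List ℕ → Bool} {e : ℕ} {σ : List ℕ} (h : Un π e σ) :
    ∃ s t, (Kid σ s ∧ Kid σ t) ∧ Sib s t ∧ Un π e s ∧ Un π e t := by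
  by_contra hno
  push Not at hno
  have hτ : ∀ n, ∃ τ, σ.length < n → (τ.length = n ∧ τ.take σ.length = σ ∧ Un π e τ) := by
    intro n
    by_cases hn : σ.length < n
    · by_contra hno2
      push Not at hno2
      apply h
      have hsub : {Z | Z ∈ Q π e ∧ pre (toN Z) σ.length = σ} ⊆
          ⋃ τ : {τ : List ℕ // ¬ Un π e τ},
            {Z | Z ∈ Q π e ∧ pre (toN Z) τ.1.length = τ.1} := by
        rintro Z ⟨hZ, hσ⟩
        rw [Set.mem_iUnion]
        refine ⟨⟨pre (toN Z) n, (hno2 _).2 (pre_length _ _) ?_⟩, hZ, ?_⟩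
        · rw [pre_take _ _ _ hn.le, hσ]
        · show pre (toN Z) (pre (toN Z) n).length = pre (toN Z) n
          rw [pre_length]
      refine Set.Countable.mono hsub (Set.countable_iUnion fun τ => ?_)
      exact not_not.1 τ.2
    · exact ⟨[], fun h => absurd h hn⟩
  choose τ hτ using hτ
  apply h
  have hsub : {Z | Z ∈ Q π e ∧ pre (toN Z) σ.length = σ} ⊆
      {Z | ∀ n, σ.length < n → pre (toN Z) n = τ n} ∪
        ⋃ τ : {τ : List ℕ // ¬ Un π e τ}, {Z | Z ∈ Q π e ∧ pre (toN Z) τ.1.length = τ.1} := by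
    rintro Z ⟨hZ, hσ⟩
    by_cases hall : ∀ n, σ.length < n → pre (toN Z) n = τ n
    · exact Or.inl hall
    · right
      push Not at hall
      obtain ⟨n, hn, hne⟩ := hall
      rw [Set.mem_iUnion]
      refine ⟨⟨pre (toN Z) n, fun hU => ?_⟩, hZ, by rw [pre_length]⟩
      obtain ⟨h1, h2, h3⟩ := hτ n hn
      refine hno (pre (toN Z) n) (τ n) ⟨⟨?_, ?_⟩, ⟨?_, ?_⟩⟩ ⟨?_, hne⟩ hU h3
      · rw [pre_take _ _ _ hn.le, hσ]
      · rw [pre_length]; exact hn
      · exact h2
      · rw [h1]; exact hn
      · rw [pre_length, h1]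
  refine Set.Countable.mono hsub (Set.Countable.union ?_ (Set.countable_iUnion fun τ => ?_))
  · refine Set.Subsingleton.countable ?_
    intro Z hZ Z' hZ'
    funext i
    have h1 := hZ (σ.length + i + 1) (by omega)
    have h2 := hZ' (σ.length + i + 1) (by omega)
    exact pre_toN_inj (h1.trans h2.symm) i (by omega)
  · exact not_not.1 τ.2

theorem unc_iff {π : ℕ → List ℕ → Bool} {z : ℕ} : ¬ (S π z).Countable ↔
    ∃ f : ℕ → ℕ, ∀ n, Cond π z (pre f n) := by
  constructor
  · intro h
    have hroot : ∃ σ, good π z.unpair.1 σ = false ∧ Un π z.unpair.2 σ := by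
      by_contra hno
      push Not at hno
      apply h
      have hsub : S π z ⊆ ⋃ σ : {σ : List ℕ // ¬ Un π z.unpair.2 σ},
          {Z | Z ∈ Q π z.unpair.2 ∧ pre (toN Z) σ.1.length = σ.1} := by
        rintro Z ⟨hZ, hZ'⟩
        obtain ⟨n, hn⟩ := not_mem_Q.1 hZ'
        rw [Set.mem_iUnion]
        exact ⟨⟨pre (toN Z) n, hno _ hn⟩, hZ, by rw [pre_length]⟩
      refine Set.Countable.mono hsub (Set.countable_iUnion fun τ => ?_)
      exact not_not.1 τ.2
    obtain ⟨σ0, hσ0, hU0⟩ := hroot
    have hsplit : ∀ σ : {σ // Un π z.unpair.2 σ}, ∃ st : {σ // Un π z.unpair.2 σ} ×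
        {σ // Un π z.unpair.2 σ}, (Kid σ.1 st.1.1 ∧ Kid σ.1 st.2.1) ∧ Sib st.1.1 st.2.1 := by
      rintro ⟨σ, hσ⟩
      obtain ⟨s, t, h1, h2, h3, h4⟩ := hσ.split
      exact ⟨(⟨s, h3⟩, ⟨t, h4⟩), h1, h2⟩
    choose st hst using hsplit
    let φ : ℕ → {σ // Un π z.unpair.2 σ} :=
      heap ⟨σ0, hU0⟩ (fun v => (st v).1) (fun v => (st v).2)
    have hφ0 : φ 0 = ⟨σ0, hU0⟩ := heap_zero _ _ _
    have hφt : ∀ i, φ (ch true i) = (st (φ i)).1 := fun i => heap_true _ _ _ i
    have hφf : ∀ i, φ (ch false i) = (st (φ i)).2 := fun i => heap_false _ _ _ i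
    refine ⟨fun i => encode (φ i).1, fun n i hi => ?_⟩
    rw [pre_length] at hi
    have hgs : ∀ j < n, gs (pre (fun i => encode (φ i).1) n) j = (φ j).1 := by
      intro j hj
      unfold gs ds
      simp [pre, hj]
    rw [pre_length, hgs i hi]
    refine ⟨⟨(φ i).2.good, fun h0 => ?_⟩, ⟨fun h1 => ?_, fun h1 => ?_⟩, fun h1 h2 => ?_⟩
    · subst h0
      rw [hφ0]
      exact hσ0
    · rw [hgs _ h1, hφt]; exact (hst _).1.1
    · rw [hgs _ h1, hφf]; exact (hst _).1.2
    · rw [hgs _ h1, hgs _ h2, hφt, hφf]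
      exact (hst _).2
  · rintro ⟨f, hf⟩ hc
    have hgs : ∀ n, ∀ j < n, gs (pre f n) j = ds (f j) := by
      intro n j hj
      unfold gs
      simp [pre, hj]
    have hall : ∀ i, _ := fun i => hf (i + ch true i + ch false i + 1) i (by
      rw [pre_length]; omega)
    have hle : 𝔠 ≤ #(S π z) := by
      refine cont_of_scheme (F := fun i => ds (f i)) ?_ ?_ ?_ ?_ ?_
      · intro i
        have := (hall i).1.1.1
        rwa [hgs _ i (by omega)] at this
      · intro i
        have := (hall i).1.1.2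
        rwa [hgs _ i (by omega)] at this
      · have := (hall 0).1.2 rfl
        rwa [hgs _ 0 (by omega)] at this
      · intro c i
        cases c
        · have := (hall i).2.1.2 (by rw [pre_length]; omega)
          rwa [hgs _ i (by omega), hgs _ (ch false i) (by omega)] at this
        · have := (hall i).2.1.1 (by rw [pre_length]; omega)
          rwa [hgs _ i (by omega), hgs _ (ch true i) (by omega)] at this
      · intro i
        have := (hall i).2.2 (by rw [pre_length]; omega) (by rw [pre_length]; omega)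
        rwa [hgs _ (ch true i) (by omega), hgs _ (ch false i) (by omega)] at this
    have h2 : #(S π z) ≤ ℵ₀ := le_aleph0_iff_set_countable.2 hc
    exact absurd (hle.trans h2) (not_le.2 aleph0_lt_continuum)

theorem cont_of_unc {π : ℕ → List ℕ → Bool} {z : ℕ} (h : ¬ (S π z).Countable) :
    𝔠 ≤ #(S π z) := by
  obtain ⟨f, hf⟩ := unc_iff.1 h
  have hgs : ∀ n, ∀ j < n, gs (pre f n) j = ds (f j) := by
    intro n j hj
    unfold gs
    simp [pre, hj]
  have hall : ∀ i, _ := fun i => hf (i + ch true i + ch false i + 1) i (by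
    rw [pre_length]; omega)
  refine cont_of_scheme (F := fun i => ds (f i)) ?_ ?_ ?_ ?_ ?_
  · intro i
    have := (hall i).1.1.1
    rwa [hgs _ i (by omega)] at this
  · intro i
    have := (hall i).1.1.2
    rwa [hgs _ i (by omega)] at this
  · have := (hall 0).1.2 rfl
    rwa [hgs _ 0 (by omega)] at this
  · intro c i
    cases c
    · have := (hall i).2.1.2 (by rw [pre_length]; omega)
      rwa [hgs _ i (by omega), hgs _ (ch false i) (by omega)] at this
    · have := (hall i).2.1.1 (by rw [pre_length]; omega)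
      rwa [hgs _ i (by omega), hgs _ (ch true i) (by omega)] at this
  · intro i
    have := (hall i).2.2 (by rw [pre_length]; omega) (by rw [pre_length]; omega)
    rwa [hgs _ (ch true i) (by omega), hgs _ (ch false i) (by omega)] at this

theorem unc_sigma11 {π : ℕ → List ℕ → Bool} (hπ : EffEnum π) :
    Sigma11 fun z => ¬ (S π z).Countable :=
  ⟨fun p => Cond π p.1 p.2, cond_cp hπ, fun _ => unc_iff⟩

end Pool.Agent.Q206.DC
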