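import Pool.Agent.Q206.DC.Unc

/-!
Uncountable differences: hardness.
-/

namespace Pool.Agent.Q206.DC

open Encodable Denumerable Pool.Agent.Helper446 Pool.Agent.Helper446.RE
open Pool.Agent.Helper446.CB Pool.Agent.Q206.ISC
open Cardinal

/-- the state of the reader: inside a block of zeros or just after its `1`; number of zeros read;
lengths of the blocks already read -/
abbrev St := Bool × ℕ × List ℕ

/-- one step of the reader -/
def stp (s : St) (a : ℕ) : St :=
  bif s.1 then (false, 0, s.2.2) else
    (bif decide (a = 0) then (false, s.2.1 + 1, s.2.2) else (true, 0, s.2.2 ++ [s.2.1]))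

/-- the reader -/
def run (σ : List ℕ) : St := σ.foldl stp (false, 0, [])

/-- the blocks read so far -/
def dec (σ : List ℕ) : List ℕ := (run σ).2.2

theorem run_comp : Computable run := by
  unfold run
  refine list_foldl (f := fun σ : List ℕ => σ) (g := fun _ => ((false, 0, []) : St))
    (h := fun _ (p : St × ℕ) => stp p.1 p.2) (by fun_prop) (Computable.const _) ?_
  have h1 : Computable fun r : List ℕ × (St × ℕ) => decide (r.2.2 = 0) :=
    cdecide (RE.cp_eq (by fun_prop) (by fun_prop))
  have h2 : Computable fun r : List ℕ × (St × ℕ) => stp r.2.1 r.2.2 := by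
    unfold stp
    refine ccond (by fun_prop) (by fun_prop) (ccond h1 (by fun_prop) (by fun_prop))
  exact h2

theorem dec_comp : Computable dec := by
  have := run_comp
  unfold dec
  fun_prop

theorem pre_succ (X : ℕ → ℕ) (n : ℕ) : pre X (n + 1) = pre X n ++ [X n] := by
  simp [pre, List.range_succ]

theorem run_pre_succ (X : ℕ → ℕ) (n : ℕ) : run (pre X (n + 1)) = stp (run (pre X n)) (X n) := by
  rw [pre_succ]
  simp [run]

/-- eventually zero points -/
def EZ : Set (ℕ → Bool) := {b | ∃ n, ∀ i, n ≤ i → b i = false}

theorem ez_countable : EZ.Countable := by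
  have : EZ ⊆ Set.range fun l : List Bool => fun i => (l[i]?).getD false := by
    rintro b ⟨n, hn⟩
    refine ⟨(List.range n).map b, ?_⟩
    funext i
    by_cases hi : i < n
    · simp [hi]
    · simp [hi, hn i (by omega)]
  exact (Set.countable_range _).mono this

/-- A point which is not eventually zero codes a function. -/
theorem exists_of_not_ez {Y : ℕ → Bool} (hY : Y ∉ EZ) {R : List ℕ → Prop}
    (hR : ∀ n, R (dec (pre (toN Y) n))) : ∃ f : ℕ → ℕ, ∀ n, R (pre f n) := by
  have hinf : ∀ n, ∃ j, n ≤ j ∧ Y j = true := by
    intro n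
    by_contra hno
    push Not at hno
    exact hY ⟨n, fun i hi => by simpa using hno i hi⟩
  have hA : ∀ n, (run (pre (toN Y) n)).1 = false → ∃ m k,
      dec (pre (toN Y) m) = dec (pre (toN Y) n) ++ [k] := by
    intro n hn
    classical
    have hj := Nat.find_spec (hinf n)
    set j := Nat.find (hinf n) with hjdef
    have hmin : ∀ i, n ≤ i → i < j → Y i = false := by
      intro i h1 h2
      have := Nat.find_min (hinf n) h2
      simp only [not_and] at this
      simpa using this h1
    have hzero : ∀ d, n + d ≤ j → run (pre (toN Y) (n + d)) =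
        (false, (run (pre (toN Y) n)).2.1 + d, (run (pre (toN Y) n)).2.2) := by
      intro d
      induction d with
      | zero =>
        intro _
        rw [Nat.add_zero, Nat.add_zero, ← hn]
      | succ d ih =>
        intro hd
        rw [← Nat.add_assoc, run_pre_succ, ih (by omega)]
        have : toN Y (n + d) = 0 := by
          unfold toN
          rw [hmin _ (by omega) (by omega)]
          rfl
        rw [this]
        simp only [stp, cond_false, decide_true, cond_true]
        rfl
    have h1 := hzero (j - n) (by omega)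
    rw [show n + (j - n) = j by omega] at h1
    refine ⟨j + 1, (run (pre (toN Y) n)).2.1 + (j - n), ?_⟩
    unfold dec
    rw [run_pre_succ, h1]
    have : toN Y j = 1 := by
      unfold toN
      rw [hj.2]
      rfl
    rw [this]
    simp only [stp, cond_false, one_ne_zero, decide_false]
  have hstep : ∀ n, ∃ m k, dec (pre (toN Y) m) = dec (pre (toN Y) n) ++ [k] := by
    intro n
    rcases hr : (run (pre (toN Y) n)).1 with _ | _
    · exact hA n hr
    · have h1 : run (pre (toN Y) (n + 1)) = (false, 0, (run (pre (toN Y) n)).2.2) := by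
        rw [run_pre_succ]
        simp only [stp, hr, cond_true]
      obtain ⟨m, k, hm⟩ := hA (n + 1) (by rw [h1])
      refine ⟨m, k, ?_⟩
      rw [hm]
      unfold dec
      rw [h1]
  choose N K hNK using hstep
  let ns : ℕ → ℕ := fun i => Nat.rec 0 (fun _ v => N v) i
  have hns : ∀ i, ns (i + 1) = N (ns i) := fun i => rfl
  refine ⟨fun i => K (ns i), fun n => ?_⟩
  have : pre (fun i => K (ns i)) n = dec (pre (toN Y) (ns n)) := by
    induction n with
    | zero => rfl
    | succ n ih =>
      rw [pre_succ, ih, hns, hNK]
  rw [this]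
  exact hR _

/-- the generator -/
def gen (f : ℕ → ℕ) : ℕ → ℕ × ℕ
  | 0 => (0, 0)
  | n + 1 => if (gen f n).2 ≤ f (gen f n).1 then ((gen f n).1, (gen f n).2 + 1) else
      ((gen f n).1 + 1, 0)

/-- the generated point -/
def out (f : ℕ → ℕ) (c : ℕ → Bool) (n : ℕ) : Bool :=
  if (gen f n).2 < f (gen f n).1 then false else
    if (gen f n).2 = f (gen f n).1 then true else c (gen f n).1

theorem gen_run (f : ℕ → ℕ) (c : ℕ → Bool) (n : ℕ) : (gen f n).2 ≤ f (gen f n).1 + 1 ∧
    run (pre (toN (out f c)) n) =
      if (gen f n).2 ≤ f (gen f n).1 then (false, (gen f n).2, pre f (gen f n).1) else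
        (true, 0, pre f ((gen f n).1 + 1)) := by
  induction n with
  | zero => simp [gen, pre, run]
  | succ n ih =>
    obtain ⟨ih1, ih2⟩ := ih
    rw [run_pre_succ, ih2]
    set i := (gen f n).1 with hi
    set j := (gen f n).2 with hj
    by_cases h1 : j ≤ f i
    · have hg : gen f (n + 1) = (i, j + 1) := by
        rw [gen, ← hi, ← hj, if_pos h1]
      rw [hg, if_pos h1]
      by_cases h2 : j < f i
      · have ho : toN (out f c) n = 0 := by
          unfold toN out
          rw [← hi, ← hj, if_pos h2]
          rfl
        rw [ho]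
        refine ⟨by dsimp only; omega, ?_⟩
        rw [if_pos (by dsimp only; omega)]
        simp only [stp, cond_false, decide_true, cond_true]
      · have ho : toN (out f c) n = 1 := by
          unfold toN out
          rw [← hi, ← hj, if_neg h2, if_pos (by omega)]
          rfl
        rw [ho]
        refine ⟨by dsimp only; omega, ?_⟩
        rw [if_neg (by dsimp only; omega)]
        simp only [stp, cond_false, one_ne_zero, decide_false]
        rw [pre_succ, show j = f i by omega]
    · have hg : gen f (n + 1) = (i + 1, 0) := by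
        rw [gen, ← hi, ← hj, if_neg h1]
      rw [hg, if_neg h1]
      refine ⟨by dsimp only; omega, ?_⟩
      rw [if_pos (by dsimp only; omega)]
      simp only [stp, cond_true]

theorem gen_reach (f : ℕ → ℕ) (i : ℕ) : ∃ n, gen f n = (i, f i + 1) := by
  have hrow : ∀ i, (∃ n, gen f n = (i, 0)) → ∃ n, gen f n = (i, f i + 1) := by
    rintro i ⟨n, hn⟩
    have : ∀ d, d ≤ f i + 1 → gen f (n + d) = (i, d) := by
      intro d
      induction d with
      | zero => intro _; exact hn
      | succ d ih =>
        intro hd
        rw [← Nat.add_assoc, gen, ih (by omega), if_pos (by dsimp only; omega)]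
    exact ⟨n + (f i + 1), this _ (le_refl _)⟩
  have hstart : ∃ n, gen f n = (i, 0) := by
    induction i with
    | zero => exact ⟨0, rfl⟩
    | succ i ih =>
      obtain ⟨n, hn⟩ := hrow i ih
      refine ⟨n + 1, ?_⟩
      rw [gen, hn, if_neg (by dsimp only; omega)]
  exact hrow i hstart

theorem out_injective (f : ℕ → ℕ) : Function.Injective (out f) := by
  intro c c' h
  funext i
  obtain ⟨n, hn⟩ := gen_reach f i
  have := congrFun h n
  unfold out at this
  rw [hn] at this
  simpa using this

theorem dec_out {f : ℕ → ℕ} {c : ℕ → Bool} {R : List ℕ → Prop} (hR : ∀ n, R (pre f n)) (n : ℕ) :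
    R (dec (pre (toN (out f c)) n)) := by
  unfold dec
  rw [(gen_run f c n).2]
  split_ifs
  · exact hR _
  · exact hR _

/-- Σ¹₁-hardness, with infinite differences throughout. -/
theorem sigma11_hard {π : ℕ → List ℕ → Bool} (hπ : EffEnum π) {X : ℕ → Prop} (hX : Sigma11 X) :
    ∃ f : ℕ → ℕ, Computable f ∧ ∀ x, (S π (f x)).Infinite ∧
      (X x → ¬ (S π (f x)).Countable) ∧ (¬ X x → (S π (f x)).Countable) := by
  obtain ⟨R, hR, hX⟩ := hX
  have hdec := dec_comp
  have hget : ∀ {α : Type} [Primcodable α] {f : α → List ℕ} {g : α → ℕ}, Computable f →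
      Computable g → Computable fun a => ((f a)[g a]?).getD 0 := by
    intro α _ f g hf hg
    have h1 : Computable fun a => (f a)[g a]? := by fun_prop
    exact (Primrec.option_getD.comp Primrec.id (Primrec.const 0)).to_comp.comp h1
  have htail : Computable fun σ : List ℕ => σ.tail := Primrec.list_tail.to_comp
  let T : ℕ × List ℕ → Prop := fun p =>
    ((p.2[0]?).getD 0 = 1 → R (p.1, dec p.2.tail)) ∧
    (¬ (p.2[0]?).getD 0 = 1 → ∀ i < p.2.length, ∀ j < p.2.length,
      ¬ (p.2[i]?).getD 0 = 0 → ¬ (p.2[j]?).getD 0 = 0 → i = j)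
  have hT : Pi 1 T := by
    refine Pi.succ (n := 0) (Pi.and (Pi.imp ?_ ?_) (Pi.imp ?_ ?_))
    · exact RE.cp_eq (hget (f := fun p : ℕ × List ℕ => p.2) (by fun_prop) (by fun_prop))
        (by fun_prop)
    · refine Pi.of_cp (RE.cp_comp hR (f := fun p : ℕ × List ℕ => (p.1, dec p.2.tail)) ?_)
      have h1 : Computable fun p : ℕ × List ℕ => p.2.tail := htail.comp (by fun_prop)
      have h2 : Computable fun p : ℕ × List ℕ => dec p.2.tail := hdec.comp h1
      fun_prop
    · exact (RE.cp_eq (hget (f := fun p : ℕ × List ℕ => p.2) (by fun_prop) (by fun_prop))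
        (by fun_prop)).not
    · refine Pi.all_lt (p := fun (p : ℕ × List ℕ) (i : ℕ) => ∀ j < p.2.length,
        ¬ (p.2[i]?).getD 0 = 0 → ¬ (p.2[j]?).getD 0 = 0 → i = j) ?_ (by fun_prop)
      refine Pi.all_lt (p := fun (q : (ℕ × List ℕ) × ℕ) (j : ℕ) =>
        ¬ (q.1.2[q.2]?).getD 0 = 0 → ¬ (q.1.2[j]?).getD 0 = 0 → q.2 = j) ?_ (by fun_prop)
      refine Pi.imp (RE.cp_eq (hget (by fun_prop) (by fun_prop)) (by fun_prop)).not
        (Pi.imp (RE.cp_eq (hget (by fun_prop) (by fun_prop)) (by fun_prop)).not
          (Pi.of_cp (RE.cp_eq (by fun_prop) (by fun_prop))))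
  obtain ⟨f, hf, hf'⟩ := smn_comp hπ hT
  obtain ⟨g, hg, hg'⟩ := smn_comp hπ (T := fun _ : ℕ × List ℕ => (0 : ℕ) = 1)
    (Pi.of_cp (RE.cp_eq (by fun_prop) (by fun_prop)))
  have hg0 : Q π (g 0) = ∅ := by
    rw [hg']
    ext b
    simp
  refine ⟨fun x => Nat.pair (g 0) (f x), by fun_prop, fun x => ?_⟩
  have hS : S π (Nat.pair (g 0) (f x)) = Q π (f x) := by
    unfold S
    simp only [Nat.unpair_pair]
    rw [hg0, Set.sdiff_empty]
  rw [hS]
  -- shift
  let cons : Bool → (ℕ → Bool) → ℕ → Bool := fun a Y n => Nat.casesOn n a Y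
  have hcons : ∀ a Y n, pre (toN (cons a Y)) (n + 1) = a.toNat :: pre (toN Y) n := by
    intro a Y n
    unfold pre
    rw [List.range_succ_eq_map]
    simp only [List.map_cons, List.map_map]
    rfl
  have hconsinj : ∀ a, Function.Injective (cons a) := by
    intro a Y Y' h
    funext n
    exact congrFun h (n + 1)
  have hmem1 : ∀ Y, cons true Y ∈ Q π (f x) ↔ ∀ n, R (x, dec (pre (toN Y) n)) := by
    intro Y
    rw [hf']
    simp only [Set.mem_ofPred_eq]
    constructor
    · intro h n
      have h1 := (h (n + 1)).1
      rw [hcons] at h1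
      exact h1 rfl
    · intro h n
      cases n with
      | zero =>
        refine ⟨fun h1 => absurd h1 (by simp [pre]), fun _ i hi => ?_⟩
        exact absurd hi (by simp [pre])
      | succ n =>
        rw [hcons]
        exact ⟨fun _ => h n, fun h1 => absurd rfl h1⟩
  have hmem0 : ∀ Y, cons false Y ∈ Q π (f x) → Y ∈ EZ := by
    intro Y hY
    rw [hf'] at hY
    simp only [Set.mem_ofPred_eq] at hY
    by_cases hall : ∀ i, Y i = false
    · exact ⟨0, fun i _ => hall i⟩
    · push Not at hall
      obtain ⟨i, hi⟩ := hall
      refine ⟨i + 1, fun j hj => ?_⟩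
      by_contra hne
      have h1 := (hY (j + 2)).2
      rw [show j + 2 = (j + 1) + 1 by omega, hcons] at h1
      have h2 : ∀ k, k ≤ j → (((false.toNat :: pre (toN Y) (j + 1))[k + 1]?).getD 0 = 0 ↔
          Y k = false) := by
        intro k hk
        have : (false.toNat :: pre (toN Y) (j + 1))[k + 1]? = some (toN Y k) := by
          simp [pre, show k < j + 1 by omega]
        rw [this]
        simp only [Option.getD_some]
        unfold toN
        cases Y k <;> simp
      have h3 := h1 (by simp) (i + 1) (by simp [pre_length]; omega) (j + 1)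
        (by simp [pre_length])
        (by rw [h2 i (by omega)]; exact hi) (by rw [h2 j (le_refl j)]; exact hne)
      omega
  have hcases : ∀ Z, ∃ a Y, Z = cons a Y := fun Z => ⟨Z 0, fun n => Z (n + 1), by
    funext n
    cases n <;> rfl⟩
  refine ⟨?_, fun hx => ?_, fun hx => ?_⟩
  · -- infinitely many members
    let e : ℕ → ℕ → Bool := fun i => cons false fun j => j == i
    have he : Function.Injective e := by
      intro i j hij
      have := congrFun hij (i + 1)
      simpa [e, cons] using this
    refine Set.infinite_of_injective_forall_mem he fun i => ?_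
    rw [hf']
    intro n
    cases n with
    | zero =>
      refine ⟨fun h1 => absurd h1 (by simp [pre]), fun _ i hi => ?_⟩
      exact absurd hi (by simp [pre])
    | succ n =>
      rw [hcons]
      have h2 : ∀ k, k < n + 1 → ¬ (((false.toNat ::
          pre (toN fun j => j == i) n)[k]?).getD 0 = 0) → k = i + 1 := by
        intro k hk hne
        cases k with
        | zero => exact absurd rfl hne
        | succ k =>
          have h3 : (false.toNat :: pre (toN fun j => j == i) n)[k + 1]? =
              some (toN (fun j => j == i) k) := by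
            simp [pre, show k < n by omega]
          rw [h3] at hne
          simp only [Option.getD_some] at hne
          unfold toN at hne
          by_contra hki
          apply hne
          have : (k == i) = false := beq_eq_false_iff_ne.2 (by omega)
          simp [this]
      refine ⟨fun h1 => absurd h1 (by simp), fun _ k hk j hj hk' hj' => ?_⟩
      simp only [List.length_cons, pre_length] at hk hj
      dsimp only at hk' hj'
      rw [h2 k hk hk', h2 j hj hj']
  · obtain ⟨h, hh⟩ := (hX x).1 hx
    intro hc
    have h1 : (Set.range fun c => cons true (out h c)) ⊆ Q π (f x) := by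
      rintro _ ⟨c, rfl⟩
      rw [hmem1]
      exact dec_out (R := fun l => R (x, l)) hh
    have h2 := hc.mono h1
    have h3 : Function.Injective fun c => cons true (out h c) :=
      (hconsinj true).comp (out_injective h)
    have h4 : (Set.univ : Set (ℕ → Bool)).Countable := by
      rw [← Set.image_univ] at h2
      exact Set.countable_of_injective_of_countable_image h3.injOn h2
    rw [← le_aleph0_iff_set_countable, Cardinal.mk_univ] at h4
    have h5 : #(ℕ → Bool) = 𝔠 := by simp
    rw [h5] at h4
    exact absurd h4 (not_le.2 aleph0_lt_continuum)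
  · have hsub : Q π (f x) ⊆ cons true '' EZ ∪ cons false '' EZ := by
      intro Z hZ
      obtain ⟨a, Y, rfl⟩ := hcases Z
      cases a
      · exact Or.inr ⟨Y, hmem0 Y hZ, rfl⟩
      · left
        refine ⟨Y, ?_, rfl⟩
        by_contra hY
        exact hx ((hX x).2 (exists_of_not_ez hY (R := fun l => R (x, l)) ((hmem1 Y).1 hZ)))
    exact ((ez_countable.image _).union (ez_countable.image _)).mono hsub

end Pool.Agent.Q206.DC
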